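import Pool.Agent.R805.Weave.Count

/-! Asymptotics. -/

namespace Pool.Agent.R805.Weave

open Finset Filter Topology

theorem cast_descFactorial_prod (u j : ℕ) :
    ((u.descFactorial j : ℕ) : ℝ) = ∏ i ∈ range j, ((u : ℝ) - i) := by
  induction j with
  | zero => simp
  | succ j ih =>
    rw [Nat.descFactorial_succ, prod_range_succ, ← ih]
    by_cases h : j ≤ u
    · push_cast [Nat.cast_sub h]; ring
    · have : u.descFactorial j = 0 := Nat.descFactorial_eq_zero_iff_lt.mpr (by omega)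
      rw [this]; simp

theorem cast_choose_prod (u j : ℕ) :
    ((u.choose j : ℕ) : ℝ) = (∏ i ∈ range j, ((u : ℝ) - i)) / (j.factorial : ℝ) := by
  rw [← cast_descFactorial_prod, Nat.descFactorial_eq_factorial_mul_choose]
  have : (j.factorial : ℝ) ≠ 0 := by exact_mod_cast j.factorial_ne_zero
  push_cast
  field_simp

theorem tendsto_choose_div (u : ℕ → ℕ) (x : ℝ)
    (hu : Tendsto (fun m : ℕ => (u m : ℝ) / m) atTop (𝓝 x)) (j : ℕ) :
    Tendsto (fun m : ℕ => ((u m).choose j : ℝ) / (m : ℝ) ^ j) atTop (𝓝 (x ^ j / j.factorial)) := by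
  have h1 : ∀ i ∈ range j, Tendsto (fun m : ℕ => ((u m : ℝ) - i) / m) atTop (𝓝 x) := by
    intro i _
    have h2 : Tendsto (fun m : ℕ => (i : ℝ) / m) atTop (𝓝 0) :=
      tendsto_const_div_atTop_nhds_zero_nat (i : ℝ)
    have h3 := hu.sub h2
    rw [sub_zero] at h3
    refine h3.congr (fun m => ?_)
    ring
  have h2 := tendsto_finsetProd (range j) h1
  rw [prod_const, card_range] at h2
  refine (h2.div_const (j.factorial : ℝ)).congr (fun m => ?_)
  rw [cast_choose_prod, prod_div_distrib, prod_const, card_range]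
  ring

theorem tendsto_sub_div (V : ℕ → ℕ) (v c : ℕ) (h1 : ∀ᶠ m in atTop, v * m ≤ V m)
    (h2 : ∀ᶠ m in atTop, V m ≤ v * m + c) (d : ℕ) :
    Tendsto (fun m : ℕ => ((V m - 1 - d : ℕ) : ℝ) / m) atTop (𝓝 (v : ℝ)) := by
  have hz : Tendsto (fun m : ℕ => ((c : ℝ) + 1 + d) / m) atTop (𝓝 0) :=
    tendsto_const_div_atTop_nhds_zero_nat _
  have hkey : Tendsto (fun m : ℕ => ((V m - 1 - d : ℕ) : ℝ) / m - v) atTop (𝓝 0) := by
    apply squeeze_zero_norm' _ hz
    filter_upwards [h1, h2, eventually_ge_atTop 1] with m e1 e2 e3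
    have hm : (0 : ℝ) < m := by exact_mod_cast e3
    rw [Real.norm_eq_abs]
    have e4 : ((V m - 1 - d : ℕ) : ℝ) / m - v = (((V m - 1 - d : ℕ) : ℝ) - v * m) / m := by
      field_simp
    rw [e4, abs_div, abs_of_pos hm]
    apply div_le_div_of_nonneg_right _ hm.le
    rw [abs_le]
    have a1 : V m ≤ (V m - 1 - d) + 1 + d := by omega
    have a2 : V m - 1 - d ≤ V m := by omega
    have b1 : ((v * m : ℕ) : ℝ) ≤ V m := by exact_mod_cast e1
    have b2 : (V m : ℝ) ≤ ((v * m + c : ℕ) : ℝ) := by exact_mod_cast e2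
    have b3 : (V m : ℝ) ≤ (((V m - 1 - d) + 1 + d : ℕ) : ℝ) := by exact_mod_cast a1
    have b4 : ((V m - 1 - d : ℕ) : ℝ) ≤ V m := by exact_mod_cast a2
    have c0 : (0 : ℝ) ≤ c := Nat.cast_nonneg c
    have d0 : (0 : ℝ) ≤ d := Nat.cast_nonneg d
    push_cast at b1 b2 b3
    constructor <;> linarith
  have := hkey.add_const (v : ℝ)
  rw [zero_add] at this
  exact this.congr (fun m => by ring)

theorem asym_main (n v c k K : ℕ) (hvn : v ≤ n) (hk : 1 ≤ k) (a : ℕ → ℤ) (V : ℕ → ℕ)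
    (hV1 : ∀ᶠ m in atTop, v * m ≤ V m) (hV2 : ∀ᶠ m in atTop, V m ≤ v * m + c)
    (hest : ∀ᶠ m in atTop, |a m - ∑ j ∈ range (k + 1), ((m * n).choose j : ℤ) * term' (V m) k j| ≤
      2 * (k : ℤ) ^ 2 * ((2 ^ K * (V m + m * n) : ℕ) : ℤ) ^ (k - 1)) :
    Tendsto (fun m : ℕ => |(a m : ℝ)| / (m : ℝ) ^ k) atTop
      (𝓝 (((n - v : ℕ) : ℝ) ^ k / k.factorial)) := by
  set M : ℕ → ℝ := fun m => ∑ j ∈ range (k + 1),
    (-1 : ℝ) ^ j * (((m * n).choose j : ℝ) * ((V m - 1 - j).choose (k - j) : ℝ)) with hM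
  -- limit of the model
  have hlimM : Tendsto (fun m : ℕ => M m / (m : ℝ) ^ k) atTop
      (𝓝 (((v : ℝ) - n) ^ k / k.factorial)) := by
    have h1 : Tendsto (fun m : ℕ => ∑ j ∈ range (k + 1), (-1 : ℝ) ^ j *
        ((((m * n).choose j : ℝ) / (m : ℝ) ^ j) *
          (((V m - 1 - j).choose (k - j) : ℝ) / (m : ℝ) ^ (k - j)))) atTop
        (𝓝 (∑ j ∈ range (k + 1), (-1 : ℝ) ^ j *
          (((n : ℝ) ^ j / j.factorial) * ((v : ℝ) ^ (k - j) / (k - j).factorial)))) := by
      apply tendsto_finsetSum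
      intro j _
      apply Tendsto.const_mul
      apply Tendsto.mul
      · apply tendsto_choose_div (fun m => m * n)
        have : ∀ᶠ m : ℕ in atTop, (n : ℝ) = ((m * n : ℕ) : ℝ) / m := by
          filter_upwards [eventually_ge_atTop 1] with m hm
          have hm' : (m : ℝ) ≠ 0 := by
            have : (0 : ℝ) < m := by exact_mod_cast hm
            exact this.ne'
          push_cast
          field_simp
        exact tendsto_const_nhds.congr' this
      · exact tendsto_choose_div _ _ (tendsto_sub_div V v c hV1 hV2 j) _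
    have h2 : ∑ j ∈ range (k + 1), (-1 : ℝ) ^ j *
          (((n : ℝ) ^ j / j.factorial) * ((v : ℝ) ^ (k - j) / (k - j).factorial)) =
        ((v : ℝ) - n) ^ k / k.factorial := by
      have e1 : ((v : ℝ) - n) = -n + v := by ring
      rw [e1, add_pow, Finset.sum_div]
      apply Finset.sum_congr rfl
      intro j hj
      rw [mem_range] at hj
      have e2 : ((k.choose j : ℕ) : ℝ) = k.factorial / (j.factorial * (k - j).factorial) := by
        rw [Nat.cast_choose ℝ (by omega)]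
      rw [e2, neg_pow (n : ℝ) j]
      have f1 : (k.factorial : ℝ) ≠ 0 := by exact_mod_cast k.factorial_ne_zero
      have f2 : (j.factorial : ℝ) ≠ 0 := by exact_mod_cast j.factorial_ne_zero
      have f3 : ((k - j).factorial : ℝ) ≠ 0 := by exact_mod_cast (k - j).factorial_ne_zero
      field_simp
    rw [h2] at h1
    refine h1.congr' ?_
    filter_upwards [eventually_ge_atTop 1] with m hm
    rw [hM]
    simp only
    rw [Finset.sum_div]
    apply Finset.sum_congr rfl
    intro j hj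
    rw [mem_range] at hj
    have e3 : (m : ℝ) ^ k = (m : ℝ) ^ j * (m : ℝ) ^ (k - j) := by
      rw [← pow_add]; congr 1; omega
    have hm' : (m : ℝ) ≠ 0 := by
      have : (0 : ℝ) < m := by exact_mod_cast hm
      exact this.ne'
    rw [e3]
    field_simp
  -- comparison
  set b : ℕ → ℝ := fun m => (-1 : ℝ) ^ (V m - 1) * (a m : ℝ) with hb
  have habs : ∀ m, |b m| = |(a m : ℝ)| := by
    intro m
    rw [hb]
    simp only
    rw [abs_mul, abs_pow, abs_neg, abs_one, one_pow, one_mul]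
  have hdiff : Tendsto (fun m : ℕ => b m / (m : ℝ) ^ k - M m / (m : ℝ) ^ k) atTop (𝓝 0) := by
    have hz : Tendsto (fun m : ℕ =>
        (2 * (k : ℝ) ^ 2 * ((2 : ℝ) ^ K * (v + c + n)) ^ (k - 1)) / m) atTop (𝓝 0) :=
      tendsto_const_div_atTop_nhds_zero_nat _
    apply squeeze_zero_norm' _ hz
    filter_upwards [hV2, hest, eventually_ge_atTop 1] with m e2 e3 e4
    have hm : (0 : ℝ) < m := by exact_mod_cast e4
    have hm1 : (1 : ℝ) ≤ m := by exact_mod_cast e4
    rw [← sub_div, Real.norm_eq_abs, abs_div, abs_of_pos (pow_pos hm k)]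
    have f1 : b m - M m = (-1 : ℝ) ^ (V m - 1) *
        (((a m - ∑ j ∈ range (k + 1), ((m * n).choose j : ℤ) * term' (V m) k j : ℤ)) : ℝ) := by
      rw [hb, hM]
      simp only
      push_cast
      rw [mul_sub, Finset.mul_sum]
      congr 1
      apply Finset.sum_congr rfl
      intro j hj
      rw [mem_range] at hj
      unfold term'
      rw [if_pos (by omega)]
      push_cast
      rw [pow_add]
      have : ((-1 : ℝ) ^ (V m - 1)) * ((-1 : ℝ) ^ (V m - 1)) = 1 := by
        rw [← mul_pow]; simp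
      linear_combination (-(-1 : ℝ) ^ j * (((m * n).choose j : ℝ) *
        ((V m - 1 - j).choose (k - j) : ℝ))) * this
    rw [f1, abs_mul, abs_pow, abs_neg, abs_one, one_pow, one_mul]
    have f2 : |(((a m - ∑ j ∈ range (k + 1), ((m * n).choose j : ℤ) * term' (V m) k j : ℤ)) : ℝ)| ≤
        2 * (k : ℝ) ^ 2 * ((2 : ℝ) ^ K * (V m + m * n)) ^ (k - 1) := by
      have := (Int.cast_le (R := ℝ)).mpr e3
      rw [Int.cast_abs] at this
      refine this.trans (le_of_eq ?_)
      push_cast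
      ring
    have f3 : (2 : ℝ) ^ K * (V m + m * n) ≤ (2 ^ K * (v + c + n)) * m := by
      have g1 : (V m : ℝ) ≤ v * m + c := by exact_mod_cast e2
      have g2 : (c : ℝ) ≤ c * m := by
        have : (0 : ℝ) ≤ c := Nat.cast_nonneg c
        nlinarith
      have g3 : (V m : ℝ) + m * n ≤ (v + c + n) * m := by nlinarith
      have g4 : (0 : ℝ) ≤ 2 ^ K := by positivity
      calc _ ≤ (2 : ℝ) ^ K * ((v + c + n) * m) := mul_le_mul_of_nonneg_left g3 g4
        _ = _ := by ring
    have f4 : ((2 : ℝ) ^ K * (V m + m * n)) ^ (k - 1) ≤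
        (2 ^ K * (v + c + n)) ^ (k - 1) * (m : ℝ) ^ (k - 1) := by
      rw [← mul_pow]
      exact pow_le_pow_left₀ (by positivity) f3 _
    have f5 : (m : ℝ) ^ k = (m : ℝ) ^ (k - 1) * m := by
      rw [← pow_succ]; congr 1; omega
    rw [div_le_div_iff₀ (pow_pos hm k) hm, f5]
    have f6 : (0 : ℝ) ≤ 2 * (k : ℝ) ^ 2 := by positivity
    calc _ ≤ (2 * (k : ℝ) ^ 2 * ((2 : ℝ) ^ K * (V m + m * n)) ^ (k - 1)) * m :=
          mul_le_mul_of_nonneg_right f2 hm.le
      _ ≤ (2 * (k : ℝ) ^ 2 * ((2 ^ K * (v + c + n)) ^ (k - 1) * (m : ℝ) ^ (k - 1))) * m := by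
          apply mul_le_mul_of_nonneg_right _ hm.le
          exact mul_le_mul_of_nonneg_left f4 f6
      _ = _ := by ring
  have hb2 : Tendsto (fun m : ℕ => b m / (m : ℝ) ^ k) atTop
      (𝓝 (((v : ℝ) - n) ^ k / k.factorial)) := by
    have := hdiff.add hlimM
    rw [zero_add] at this
    exact this.congr (fun m => by ring)
  have h3 := hb2.abs
  have h4 : |((v : ℝ) - n) ^ k / (k.factorial : ℝ)| = ((n - v : ℕ) : ℝ) ^ k / k.factorial := by
    rw [abs_div, abs_pow, abs_of_pos (by positivity : (0 : ℝ) < k.factorial), Nat.cast_sub hvn,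
      abs_sub_comm, abs_of_nonneg]
    have : (v : ℝ) ≤ n := by exact_mod_cast hvn
    linarith
  rw [h4] at h3
  refine h3.congr' ?_
  filter_upwards [eventually_ge_atTop 1] with m hm
  have hm' : (0 : ℝ) < m := by exact_mod_cast hm
  rw [abs_div, habs, abs_of_pos (pow_pos hm' k)]

end Pool.Agent.R805.Weave
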