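import Pool.Agent.R805.Weave.Indep

/-! Bounds for the number of loops of the base states. -/

namespace Pool.Agent.R805.Weave

open Finset

/-- the columns whose base smoothing is horizontal -/
def ecols (n β : ℕ) : Finset ℕ := (range n).filter (fun i => (i + β) % 2 = 1)

theorem card_ecols (n β : ℕ) (hβ : β ≤ 1) : (ecols n β).card = (n + β) / 2 := by
  unfold ecols
  induction n with
  | zero => simp; omega
  | succ n ih =>
    rw [Finset.range_add_one, Finset.filter_insert]
    by_cases h : (n + β) % 2 = 1
    · rw [if_pos h, Finset.card_insert_of_notMem (by simp), ih]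
      omega
    · rw [if_neg h, ih]
      omega

variable {n m β : ℕ}

theorem tog_empty {N : ℕ} (s : Fin N → Bool) : tog s ∅ = s := by
  funext τ; simp [tog]

theorem lw_lower (hn : 2 ≤ n) (hm : 3 ≤ m) : (ecols n β).card * m ≤ lw n m β ∅ := by
  classical
  have : NeZero m := ⟨by omega⟩
  have hinv : ∀ a b : Pt n (m * n), Arc (cw n m) (tog (base n m β) ∅) a b →
      lab n m β a = lab n m β b := by
    intro a b hab
    exact (inv_tog (by omega) ∅ (fun z => z = lab n m β b) (by simp) a b hab).mpr rfl
  let f : Quot (Arc (cw n m) (tog (base n m β) ∅)) → ℕ × ZMod m := Quot.lift (lab n m β) hinv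
  have : Fintype (Quot (Arc (cw n m) (tog (base n m β) ∅))) := Fintype.ofFinite _
  have h1 : ((ecols n β).image (· + 1)) ×ˢ (univ : Finset (ZMod m)) ⊆ Finset.univ.image f := by
    intro x hx
    rw [mem_product, mem_image] at hx
    obtain ⟨⟨i, hi, hi2⟩, _⟩ := hx
    unfold ecols at hi
    rw [mem_filter, mem_range] at hi
    have hr : x.2.val < m := ZMod.val_lt x.2
    have hlt : x.2.val * n + i < m * n := by
      calc x.2.val * n + i < x.2.val * n + n := by omega
        _ = (x.2.val + 1) * n := by ring
        _ ≤ m * n := Nat.mul_le_mul_right _ hr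
    set τ : Fin (m * n) := ⟨x.2.val * n + i, hlt⟩ with hτ
    have e1 : (τ : ℕ) % n = i := by
      rw [hτ]; simp only
      rw [Nat.mul_comm, Nat.mul_add_mod, Nat.mod_eq_of_lt hi.1]
    have e2 : (τ : ℕ) / n = x.2.val := by
      rw [hτ]; simp only
      rw [Nat.mul_comm, Nat.mul_add_div (by omega), Nat.div_eq_of_lt hi.1, add_zero]
    rw [mem_image]
    refine ⟨Quot.mk _ (P00 (cw n m) τ), mem_univ _, ?_⟩
    change uu n m β τ = x
    rw [uu_e τ (by rw [e1]; exact hi.2), e1]
    unfold rw'
    rw [e2, ZMod.natCast_zmod_val]
    exact Prod.ext hi2 rfl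
  have h2 := Finset.card_le_card h1
  rw [card_product, Finset.card_image_of_injective _ (add_left_injective 1), card_univ,
    ZMod.card] at h2
  have h3 : (Finset.univ.image f).card ≤ Fintype.card _ := Finset.card_image_le.trans card_univ.le
  have h4 : lw n m β ∅ = Fintype.card (Quot (Arc (cw n m) (tog (base n m β) ∅))) := by
    unfold lw loops
    exact Nat.card_eq_fintype_card
  rw [h4]
  exact h2.trans h3

theorem loops_tog_le {N : ℕ} (c : Fin N → Fin n) (s : Fin N → Bool) (D : Finset (Fin N)) :
    loops c (tog s D) ≤ loops c s + D.card := by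
  induction D using Finset.induction_on with
  | empty => simp [tog_empty]
  | insert τ D hτ ih =>
    rw [Finset.card_insert_of_notMem hτ]
    obtain ⟨h1, _⟩ := tog_insert s D τ hτ
    have := loops_toggle_le c (fun σ hσ => (h1 σ hσ).symm)
    omega

theorem loops_true_le {N : ℕ} (c : Fin N → Fin n) : loops c (fun _ => true) ≤ n + 1 := by
  unfold loops
  have hs : Function.Surjective (fun j : Fin (n + 1) =>
      Quot.mk (Arc c (fun _ => true)) ((0 : Fin (N + 1)), j)) := by
    intro z
    induction z using Quot.ind with
    | mk a =>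
      obtain ⟨k, j⟩ := a
      refine ⟨j, ?_⟩
      simp only
      induction k using Fin.induction with
      | zero => rfl
      | succ k ih =>
        rw [ih]
        apply Quot.sound
        by_cases h1 : j = (c k).castSucc
        · rw [h1]; exact Arc.left k rfl
        · by_cases h2 : j = (c k).succ
          · rw [h2]; exact Arc.right k rfl
          · exact Arc.through k j h1 h2
  have := Nat.card_le_card_of_surjective _ hs
  rwa [Nat.card_fin] at this

theorem lw_upper : lw n m β ∅ ≤ (ecols n β).card * m + (n + 1) := by
  classical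
  set D : Finset (Fin (m * n)) := univ.filter (fun τ => base n m β τ = false) with hD
  have h1 : tog (base n m β) ∅ = tog (fun _ => true) D := by
    rw [tog_empty]
    funext τ
    unfold tog
    by_cases h : base n m β τ = false
    · rw [if_pos (by rw [hD]; simp [h]), h]; rfl
    · rw [if_neg (by rw [hD]; simp [h])]
      simpa using h
  have h2 := loops_tog_le (n := n) (cw n m) (fun _ => true) D
  have h3 := loops_true_le (n := n) (cw n m)
  have h4 : D.card ≤ (ecols n β).card * m := by
    have : D.card ≤ ((ecols n β) ×ˢ (range m)).card := by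
      apply Finset.card_le_card_of_injOn (fun τ : Fin (m * n) => ((τ : ℕ) % n, (τ : ℕ) / n))
      · intro τ hτ
        rw [hD] at hτ
        simp only [coe_filter, mem_univ, true_and, Set.mem_ofPred_eq] at hτ
        have h5 : ¬ ((τ : ℕ) % n + β) % 2 = 0 := by
          unfold base at hτ
          exact of_decide_eq_false hτ
        simp only [coe_product, Set.mem_prod, mem_coe, mem_range, ecols, mem_filter]
        exact ⟨⟨(val_decomp τ).2, by omega⟩, (τ.divNat).2⟩
      · intro x _ y _ hxy
        simp only [Prod.mk.injEq] at hxy
        apply Fin.ext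
        rw [← Nat.div_add_mod (x : ℕ) n, ← Nat.div_add_mod (y : ℕ) n, hxy.1, hxy.2]
    rwa [card_product, card_range] at this
  unfold lw
  rw [h1]
  change loops (cw n m) (tog (fun _ => true) D) ≤ _
  omega

end Pool.Agent.R805.Weave
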