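import Pool.Agent.R805.Weave.Bounds
import Pool.Agent.R805.Weave.Asym

/-! Coefficients of the Kauffman bracket. -/

namespace Pool.Agent.R805.Weave

open Finset LaurentPolynomial

theorem coeff_CT (r k y : ℤ) : (C r * T k : LaurentPolynomial ℤ).coeff y = if k = y then r else 0 := by
  rw [← single_eq_C_mul_T, AddMonoidAlgebra.coeff_single, Finsupp.single_apply]

theorem pow_expand (δ : ℤ) (hδ : δ = 1 ∨ δ = -1) (L : ℕ) :
    ((-T 2 - T (-2)) ^ L : LaurentPolynomial ℤ) =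
      ∑ i ∈ range (L + 1), C ((-1 : ℤ) ^ L * (L.choose i : ℤ)) * T (δ * (2 * L - 4 * i)) := by
  have h1 : (-T 2 - T (-2) : LaurentPolynomial ℤ) = -(T (-2 * δ) + T (2 * δ)) := by
    rcases hδ with rfl | rfl
    · norm_num; ring
    · norm_num; ring
  rw [h1, neg_pow, add_pow, Finset.mul_sum]
  apply Finset.sum_congr rfl
  intro i hi
  rw [mem_range] at hi
  rw [T_pow, T_pow]
  have h2 : ((-1 : LaurentPolynomial ℤ) ^ L) = C ((-1 : ℤ) ^ L) := by
    rw [map_pow, map_neg, map_one]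
  have h3 : ((L.choose i : ℕ) : LaurentPolynomial ℤ) = C ((L.choose i : ℤ)) := by
    rw [map_natCast]
  rw [h2, h3, map_mul, ← T_add]
  have h4 : ((i : ℤ) * (-2 * δ) + ((L - i : ℕ) : ℤ) * (2 * δ)) = δ * (2 * L - 4 * i) := by
    rw [Nat.cast_sub (by omega)]; ring
  rw [h4]
  ring

theorem tog_bijective {N : ℕ} (s : Fin N → Bool) : Function.Bijective (tog s) := by
  constructor
  · intro S S' h
    ext τ
    have h1 := congrFun h τ
    unfold tog at h1
    by_cases a : τ ∈ S <;> by_cases b : τ ∈ S' <;> simp [a, b] at h1 ⊢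
  · intro s'
    refine ⟨univ.filter (fun τ => s' τ ≠ s τ), ?_⟩
    funext τ
    unfold tog
    by_cases h : s' τ = s τ
    · rw [if_neg (by simp [h]), h]
    · rw [if_pos (by simp [h])]
      cases h1 : s τ <;> cases h2 : s' τ <;> simp_all

theorem expo {N : ℕ} (δ : ℤ) (p s0 : Fin N → Bool) (S : Finset (Fin N))
    (h : (δ = 1 ∧ ∀ τ, s0 τ = p τ) ∨ (δ = -1 ∧ ∀ τ, s0 τ = !p τ)) :
    (∑ τ, if tog s0 S τ = p τ then (1 : ℤ) else -1) = δ * ((N : ℤ) - 2 * S.card) := by
  have h1 : ∀ τ, (if tog s0 S τ = p τ then (1 : ℤ) else -1) =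
      δ * (1 - 2 * (if τ ∈ S then 1 else 0)) := by
    intro τ
    unfold tog
    rcases h with ⟨rfl, h⟩ | ⟨rfl, h⟩
    · by_cases hS : τ ∈ S <;> simp [hS, h τ]
    · by_cases hS : τ ∈ S <;> simp [hS, h τ]
  rw [Finset.sum_congr rfl (fun τ _ => h1 τ), ← Finset.mul_sum, Finset.sum_sub_distrib,
    ← Finset.mul_sum]
  simp

/-- sign data of the weaving word relative to the base states -/
theorem weaving_sign (n m β : ℕ) (δ : ℤ) (h : (δ = 1 ∧ β = 0) ∨ (δ = -1 ∧ β = 1)) :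
    (δ = 1 ∧ ∀ τ, base n m β τ = (weaving n m τ).2) ∨
      (δ = -1 ∧ ∀ τ, base n m β τ = !(weaving n m τ).2) := by
  rcases h with ⟨rfl, rfl⟩ | ⟨rfl, rfl⟩
  · left
    exact ⟨rfl, fun τ => rfl⟩
  · right
    refine ⟨rfl, fun τ => ?_⟩
    change decide (((τ.modNat : ℕ) + 1) % 2 = 0) = !decide ((τ.modNat : ℕ) % 2 = 0)
    by_cases hp : ((τ.modNat : ℕ)) % 2 = 0
    · have h1 : ¬ (((τ.modNat : ℕ) + 1) % 2 = 0) := by omega
      rw [decide_eq_true hp, decide_eq_false h1]; rfl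
    · have h1 : (((τ.modNat : ℕ) + 1) % 2 = 0) := by omega
      rw [decide_eq_false hp, decide_eq_true h1]; rfl

theorem bracket_coeff (n m β : ℕ) (δ : ℤ) (h : (δ = 1 ∧ β = 0) ∨ (δ = -1 ∧ β = 1)) (x : ℤ) :
    (bracket (weaving n m)).coeff (δ * x) = ∑ S : Finset (Fin (m * n)),
      ∑ i ∈ range (lw n m β S), if ((m * n : ℕ) : ℤ) - 2 * S.card + 2 * ((lw n m β S - 1 : ℕ) : ℤ) -
        4 * i = x then (-1 : ℤ) ^ (lw n m β S - 1) * ((lw n m β S - 1).choose i : ℤ) else 0 := by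
  have hδ : δ = 1 ∨ δ = -1 := by
    rcases h with h | h
    · exact Or.inl h.1
    · exact Or.inr h.1
  have hδ2 : δ * δ = 1 := by rcases hδ with rfl | rfl <;> norm_num
  unfold bracket
  rw [← Fintype.sum_bijective (tog (base n m β)) (tog_bijective _) _ _ (fun S => rfl)]
  rw [AddMonoidAlgebra.coeff_sum, Finsupp.finsetSum_apply]
  apply Finset.sum_congr rfl
  intro S _
  rw [expo δ (fun τ => (weaving n m τ).2) (base n m β) S (weaving_sign n m β δ h)]
  have hl : loops (fun τ => (weaving n m τ).1) (tog (base n m β) S) = lw n m β S := rfl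
  rw [hl]
  have hpos := lw_pos (β := β) S
  rw [pow_expand δ hδ, Finset.mul_sum, AddMonoidAlgebra.coeff_sum, Finsupp.finsetSum_apply]
  have hr : lw n m β S - 1 + 1 = lw n m β S := by omega
  rw [hr]
  apply Finset.sum_congr rfl
  intro i _
  have h1 : (T (δ * (((m * n : ℕ) : ℤ) - 2 * S.card)) *
      (C ((-1 : ℤ) ^ (lw n m β S - 1) * ((lw n m β S - 1).choose i : ℤ)) *
        T (δ * (2 * ((lw n m β S - 1 : ℕ) : ℤ) - 4 * i))) : LaurentPolynomial ℤ) =
      C ((-1 : ℤ) ^ (lw n m β S - 1) * ((lw n m β S - 1).choose i : ℤ)) *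
        T (δ * (((m * n : ℕ) : ℤ) - 2 * S.card + 2 * ((lw n m β S - 1 : ℕ) : ℤ) - 4 * i)) := by
    have : δ * (((m * n : ℕ) : ℤ) - 2 * S.card + 2 * ((lw n m β S - 1 : ℕ) : ℤ) - 4 * i) =
      δ * (((m * n : ℕ) : ℤ) - 2 * S.card) + δ * (2 * ((lw n m β S - 1 : ℕ) : ℤ) - 4 * i) := by ring
    rw [this, T_add]
    ring
  rw [h1, coeff_CT]
  have hiff : (δ * (((m * n : ℕ) : ℤ) - 2 * S.card + 2 * ((lw n m β S - 1 : ℕ) : ℤ) - 4 * i) =
      δ * x) ↔ (((m * n : ℕ) : ℤ) - 2 * S.card + 2 * ((lw n m β S - 1 : ℕ) : ℤ) - 4 * i = x) := by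
    rcases hδ with rfl | rfl
    · simp
    · constructor <;> intro h <;> linarith
  by_cases hx : ((m * n : ℕ) : ℤ) - 2 * S.card + 2 * ((lw n m β S - 1 : ℕ) : ℤ) - 4 * i = x
  · rw [if_pos hx, if_pos (hiff.mpr hx)]
  · rw [if_neg hx, if_neg (fun h => hx (hiff.mp h))]

/-- extreme exponent -/
noncomputable def topE (n m β : ℕ) : ℤ := ((m * n : ℕ) : ℤ) + 2 * (lw n m β ∅ : ℤ) - 2

theorem bracket_top (n m β : ℕ) (hn : 2 ≤ n) (hm : 3 ≤ m) (δ : ℤ)
    (h : (δ = 1 ∧ β = 0) ∨ (δ = -1 ∧ β = 1)) (k : ℕ) :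
    (bracket (weaving n m)).coeff (δ * (topE n m β - 4 * k)) =
      ∑ S : Finset (Fin (m * n)), term (lw n m β) k S := by
  rw [bracket_coeff n m β δ h]
  apply Finset.sum_congr rfl
  intro S _
  have hr := (loopDataW (β := β) hn hm).nonneg_rank S
  have hpos := lw_pos (β := β) S
  have hpos0 := lw_pos (n := n) (m := m) (β := β) ∅
  unfold term topE
  have e1 : ∀ i : ℕ, (((m * n : ℕ) : ℤ) - 2 * S.card + 2 * ((lw n m β S - 1 : ℕ) : ℤ) - 4 * i =
      ((m * n : ℕ) : ℤ) + 2 * (lw n m β ∅ : ℤ) - 2 - 4 * k) ↔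
      (lw n m β ∅ + S.card + 2 * i = 2 * k + lw n m β S) := by
    intro i
    rw [Nat.cast_sub hpos]
    push_cast
    omega
  have e2 : ∀ i ∈ range (lw n m β S), (if ((m * n : ℕ) : ℤ) - 2 * S.card +
      2 * ((lw n m β S - 1 : ℕ) : ℤ) - 4 * i =
      ((m * n : ℕ) : ℤ) + 2 * (lw n m β ∅ : ℤ) - 2 - 4 * k then
        (-1 : ℤ) ^ (lw n m β S - 1) * ((lw n m β S - 1).choose i : ℤ) else 0) =
      (if lw n m β ∅ + S.card + 2 * i = 2 * k + lw n m β S then
        (-1 : ℤ) ^ (lw n m β S - 1) * ((lw n m β S - 1).choose i : ℤ) else 0) := by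
    intro i _
    by_cases hc : lw n m β ∅ + S.card + 2 * i = 2 * k + lw n m β S
    · rw [if_pos hc, if_pos ((e1 i).mpr hc)]
    · rw [if_neg hc, if_neg (fun h => hc ((e1 i).mp h))]
  rw [Finset.sum_congr rfl e2]
  have e3 : ∑ i ∈ range (lw n m β S), (if lw n m β ∅ + S.card + 2 * i = 2 * k + lw n m β S then
        (-1 : ℤ) ^ (lw n m β S - 1) * ((lw n m β S - 1).choose i : ℤ) else 0) =
      ∑ i ∈ range (lw n m β S + k + 1), (if lw n m β ∅ + S.card + 2 * i = 2 * k + lw n m β S then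
        (-1 : ℤ) ^ (lw n m β S - 1) * ((lw n m β S - 1).choose i : ℤ) else 0) := by
    apply Finset.sum_subset
    · intro x hx; rw [mem_range] at hx ⊢; omega
    · intro x _ hx
      rw [mem_range] at hx
      rw [Nat.choose_eq_zero_of_lt (by omega)]
      simp
  have e4 : ∑ i ∈ range (k + 1), (if lw n m β ∅ + S.card + 2 * i = 2 * k + lw n m β S then
        (-1 : ℤ) ^ (lw n m β S - 1) * ((lw n m β S - 1).choose i : ℤ) else 0) =
      ∑ i ∈ range (lw n m β S + k + 1), (if lw n m β ∅ + S.card + 2 * i = 2 * k + lw n m β S then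
        (-1 : ℤ) ^ (lw n m β S - 1) * ((lw n m β S - 1).choose i : ℤ) else 0) := by
    apply Finset.sum_subset
    · intro x hx; rw [mem_range] at hx ⊢; omega
    · intro x _ hx
      rw [mem_range] at hx
      rw [if_neg (by omega)]
  rw [e3, e4]

theorem bracket_above (n m β : ℕ) (hn : 2 ≤ n) (hm : 3 ≤ m) (δ : ℤ)
    (h : (δ = 1 ∧ β = 0) ∨ (δ = -1 ∧ β = 1)) (x : ℤ) (hx : topE n m β < x) :
    (bracket (weaving n m)).coeff (δ * x) = 0 := by
  rw [bracket_coeff n m β δ h]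
  apply Finset.sum_eq_zero
  intro S _
  apply Finset.sum_eq_zero
  intro i _
  rw [if_neg]
  have hr := (loopDataW (β := β) hn hm).nonneg_rank S
  have hpos := lw_pos (β := β) S
  unfold topE at hx
  rw [Nat.cast_sub hpos]
  push_cast at hx ⊢
  omega

theorem maxExp_eq {P : LaurentPolynomial ℤ} {h : ℤ} (h1 : P.coeff h ≠ 0)
    (h2 : ∀ x, h < x → P.coeff x = 0) : maxExp P = h := by
  unfold maxExp
  apply IsGreatest.csSup_eq
  refine ⟨h1, ?_⟩
  intro x hx
  by_contra hcon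
  push Not at hcon
  exact hx (h2 x hcon)

theorem minExp_eq {P : LaurentPolynomial ℤ} {h : ℤ} (h1 : P.coeff h ≠ 0)
    (h2 : ∀ x, x < h → P.coeff x = 0) : minExp P = h := by
  unfold minExp
  apply IsLeast.csInf_eq
  refine ⟨h1, ?_⟩
  intro x hx
  by_contra hcon
  push Not at hcon
  exact hx (h2 x hcon)

theorem jones_coeff {n N : ℕ} (w : Fin N → Fin n × Bool) (x : ℤ) :
    |(jones w).coeff (-3 * writhe w + x)| = |(bracket w).coeff x| := by
  unfold jones
  rw [← single_eq_C_mul_T, AddMonoidAlgebra.coeff_single_mul_eq_mul_coeff x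
    (fun m' _ => by constructor <;> intro h <;> linarith), abs_mul]
  have h1 : |(((-1 : ℤˣ) ^ writhe w : ℤˣ) : ℤ)| = 1 := by
    rcases Int.units_eq_one_or ((-1 : ℤˣ) ^ writhe w) with h | h <;> rw [h] <;> simp
  rw [h1, one_mul]

/-- the twist numbers of the weaving knots -/
theorem twist_eq (n m : ℕ) (hn : 2 ≤ n) (hm : 3 ≤ m) (k : ℕ) :
    twistNumber (jones (weaving n m)) k =
      |∑ S : Finset (Fin (m * n)), term (lw n m 0) k S| +
      |∑ S : Finset (Fin (m * n)), term (lw n m 1) k S| := by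
  set a : ℤ := -3 * writhe (weaving n m) with ha
  have key : ∀ x, |(jones (weaving n m)).coeff (a + x)| = |(bracket (weaving n m)).coeff x| :=
    fun x => jones_coeff _ x
  have hmax : maxExp (jones (weaving n m)) = a + topE n m 0 := by
    apply maxExp_eq
    · intro h0
      have h1 := key (topE n m 0)
      rw [h0] at h1
      have h2 := bracket_top n m 0 hn hm 1 (Or.inl ⟨rfl, rfl⟩) 0
      simp only [one_mul, Nat.cast_zero, mul_zero, sub_zero] at h2
      rw [h2, (loopDataW (β := 0) hn hm).zero_coeff] at h1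
      simp at h1
    · intro x hx
      have h1 := key (x - a)
      have h2 := bracket_above n m 0 hn hm 1 (Or.inl ⟨rfl, rfl⟩) (x - a) (by linarith)
      rw [one_mul] at h2
      rw [h2, abs_zero, add_sub_cancel] at h1
      exact abs_eq_zero.mp h1
  have hmin : minExp (jones (weaving n m)) = a - topE n m 1 := by
    apply minExp_eq
    · intro h0
      have h1 := key (-topE n m 1)
      rw [← sub_eq_add_neg, h0] at h1
      have h2 := bracket_top n m 1 hn hm (-1) (Or.inr ⟨rfl, rfl⟩) 0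
      simp only [Nat.cast_zero, mul_zero, sub_zero, neg_mul, one_mul] at h2
      rw [h2, (loopDataW (β := 1) hn hm).zero_coeff] at h1
      simp at h1
    · intro x hx
      have h1 := key (x - a)
      have h2 := bracket_above n m 1 hn hm (-1) (Or.inr ⟨rfl, rfl⟩) (a - x) (by linarith)
      have e : (-1 : ℤ) * (a - x) = x - a := by ring
      rw [e] at h2
      rw [h2, abs_zero, add_sub_cancel] at h1
      exact abs_eq_zero.mp h1
  unfold twistNumber
  rw [hmax, hmin]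
  have e1 : a + topE n m 0 - 4 * (k : ℤ) = a + (topE n m 0 - 4 * k) := by ring
  have e2 : a - topE n m 1 + 4 * (k : ℤ) = a + (-1) * (topE n m 1 - 4 * k) := by ring
  rw [e1, e2, key, key]
  have h3 := bracket_top n m 0 hn hm 1 (Or.inl ⟨rfl, rfl⟩) k
  rw [one_mul] at h3
  rw [h3, bracket_top n m 1 hn hm (-1) (Or.inr ⟨rfl, rfl⟩) k]

end Pool.Agent.R805.Weave
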