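import Mathlib

/-! Abstract counting part. -/

namespace Pool.Agent.R805.Weave

open Finset

section Abstract
set_option linter.unusedSectionVars false
variable {C : Type*} [Fintype C] [DecidableEq C]

/-- pairwise not near -/
def Gen (near : C → C → Prop) (B : Finset C) : Prop := ∀ a ∈ B, ∀ b ∈ B, a ≠ b → ¬ near a b

open Classical in
/-- the axioms of the loop count function -/
structure LoopData (l : Finset C → ℕ) (near : C → C → Prop) (K : ℕ) : Prop where
  up : ∀ S τ, τ ∉ S → l (insert τ S) ≤ l S + 1
  down : ∀ S τ, τ ∉ S → l S ≤ l (insert τ S) + 1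
  pos : ∀ S, 1 ≤ l S
  refl : ∀ b, near b b
  symm : ∀ a b, near a b → near b a
  card : ∀ b, (univ.filter (near b)).card ≤ K
  ind0 : ∀ B : Finset C, Gen near B → l B + B.card = l ∅
  ind1 : ∀ B : Finset C, Gen near B → ∀ e, e ∉ B → l (insert e B) + B.card + 1 = l ∅

variable {l : Finset C → ℕ} {near : C → C → Prop} {K : ℕ}

theorem LoopData.union_le (h : LoopData l near K) (A D : Finset C) :
    l (A ∪ D) ≤ l A + D.card ∧ l A ≤ l (A ∪ D) + D.card := by
  induction D using Finset.induction_on with
  | empty => simp
  | insert τ D hτ ih =>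
    rw [Finset.card_insert_of_notMem hτ]
    by_cases hA : τ ∈ A ∪ D
    · have : A ∪ insert τ D = A ∪ D := by
        ext x; simp only [mem_union, mem_insert]
        constructor
        · rintro (hx | rfl | hx)
          · exact Or.inl hx
          · exact Finset.mem_union.mp hA
          · exact Or.inr hx
        · tauto
      rw [this]
      omega
    · have : A ∪ insert τ D = insert τ (A ∪ D) := by
        ext x; simp only [mem_union, mem_insert]; tauto
      rw [this]
      have h1 := h.up _ _ hA
      have h2 := h.down _ _ hA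
      omega

theorem LoopData.le_of_subset (h : LoopData l near K) {A S : Finset C} (hAS : A ⊆ S) :
    l S + A.card ≤ l A + S.card ∧ l A + A.card ≤ l S + S.card := by
  have h1 := h.union_le A (S \ A)
  rw [Finset.union_sdiff_of_subset hAS] at h1
  have h2 := Finset.card_sdiff_add_card_eq_card hAS
  omega

open Classical in
theorem exists_max_gen (near : C → C → Prop) (hs : ∀ a b, near a b → near b a) (S : Finset C) :
    ∃ B, B ⊆ S ∧ Gen near B ∧ ∀ e ∈ S, e ∉ B → ∃ b ∈ B, near b e := by
  have hne : (S.powerset.filter (Gen near)).Nonempty := by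
    refine ⟨∅, ?_⟩
    simp [Gen]
  obtain ⟨B, hB, hmax⟩ := Finset.exists_max_image _ Finset.card hne
  simp only [mem_filter, mem_powerset] at hB hmax
  refine ⟨B, hB.1, hB.2, ?_⟩
  intro e he heB
  by_contra hcon
  push Not at hcon
  have h1 : Gen near (insert e B) := by
    intro a ha b hb hab
    rw [Finset.mem_insert] at ha hb
    rcases ha with rfl | ha <;> rcases hb with rfl | hb
    · exact absurd rfl hab
    · exact fun h => hcon b hb (hs _ _ h)
    · exact hcon a ha
    · exact hB.2 a ha b hb hab
  have h2 := hmax (insert e B) ⟨Finset.insert_subset he hB.1, h1⟩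
  rw [Finset.card_insert_of_notMem heB] at h2
  omega

open Classical in
/-- the neighbourhood of a set -/
noncomputable def nbh (near : C → C → Prop) (B : Finset C) : Finset C :=
  B.biUnion (fun b => univ.filter (near b))

theorem LoopData.card_nbh (h : LoopData l near K) (B : Finset C) :
    (nbh near B).card ≤ K * B.card := by
  classical
  unfold nbh
  calc _ ≤ ∑ b ∈ B, (univ.filter (near b)).card := Finset.card_biUnion_le
    _ ≤ ∑ b ∈ B, K := Finset.sum_le_sum (fun b _ => h.card b)
    _ = K * B.card := by rw [Finset.sum_const, smul_eq_mul, mul_comm]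

theorem LoopData.nongen (h : LoopData l near K) {S : Finset C} (hS : ¬ Gen near S) :
    ∃ B, S ⊆ nbh near B ∧ l S + 2 * B.card + 2 ≤ l ∅ + S.card := by
  classical
  obtain ⟨B, hBS, hB, hmax⟩ := exists_max_gen near h.symm S
  refine ⟨B, ?_, ?_⟩
  · intro e he
    unfold nbh
    simp only [mem_biUnion, mem_filter, mem_univ, true_and]
    by_cases heB : e ∈ B
    · exact ⟨e, heB, h.refl e⟩
    · exact hmax e he heB
  · have hne : B ≠ S := fun h' => hS (h' ▸ hB)
    obtain ⟨e, heS, heB⟩ := Finset.exists_of_ssubset (hBS.ssubset_of_ne hne)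
    have h1 := h.ind1 B hB e heB
    have h2 := h.le_of_subset (Finset.insert_subset heS hBS)
    rw [Finset.card_insert_of_notMem heB] at h2
    omega

open Classical in
/-- bad sets -/
noncomputable def bad (l : Finset C → ℕ) (near : C → C → Prop) (j : ℕ) : Finset (Finset C) :=
  univ.filter (fun S => ¬ Gen near S ∧ l ∅ + S.card ≤ l S + 2 * j)

theorem LoopData.card_bad (h : LoopData l near K) (j : ℕ) :
    (bad l near j).card ≤ j * (2 ^ K * (l ∅ + Fintype.card C)) ^ (j - 1) := by
  classical
  have h1 : bad l near j ⊆ (range j).biUnion (fun i =>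
      (powersetCard i univ).biUnion (fun B => (nbh near B).powerset)) := by
    intro S hS
    unfold bad at hS
    simp only [mem_filter, mem_univ, true_and] at hS
    obtain ⟨B, hB1, hB2⟩ := h.nongen hS.1
    simp only [mem_biUnion, mem_range, mem_powersetCard, mem_powerset]
    exact ⟨B.card, by omega, B, ⟨Finset.subset_univ _, rfl⟩, hB1⟩
  have hpos := h.pos ∅
  have hZ : 1 ≤ 2 ^ K * (l ∅ + Fintype.card C) :=
    Nat.one_le_iff_ne_zero.mpr (Nat.mul_ne_zero (by positivity) (by omega))
  calc (bad l near j).card ≤ _ := Finset.card_le_card h1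
    _ ≤ ∑ i ∈ range j, ((powersetCard i (univ : Finset C)).biUnion
          (fun B => (nbh near B).powerset)).card := Finset.card_biUnion_le
    _ ≤ ∑ i ∈ range j, (2 ^ K * (l ∅ + Fintype.card C)) ^ (j - 1) := by
        apply Finset.sum_le_sum
        intro i hi
        rw [mem_range] at hi
        calc _ ≤ ∑ B ∈ powersetCard i (univ : Finset C), ((nbh near B).powerset).card :=
              Finset.card_biUnion_le
          _ ≤ ∑ B ∈ powersetCard i (univ : Finset C), 2 ^ (K * i) := by
              apply Finset.sum_le_sum
              intro B hB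
              rw [card_powerset]
              apply Nat.pow_le_pow_right (by norm_num)
              have := h.card_nbh B
              rwa [(mem_powersetCard.mp hB).2] at this
          _ = (Fintype.card C).choose i * (2 ^ K) ^ i := by
              rw [sum_const, card_powersetCard, smul_eq_mul, pow_mul, card_univ]
          _ ≤ (Fintype.card C) ^ i * (2 ^ K) ^ i :=
              Nat.mul_le_mul_right _ (Nat.choose_le_pow _ _)
          _ = (2 ^ K * Fintype.card C) ^ i := by rw [← mul_pow, mul_comm]
          _ ≤ (2 ^ K * (l ∅ + Fintype.card C)) ^ i :=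
              Nat.pow_le_pow_left (Nat.mul_le_mul_left _ (by omega)) _
          _ ≤ _ := Nat.pow_le_pow_right hZ (by omega)
    _ = _ := by rw [sum_const, card_range, smul_eq_mul]

/-- the contribution of a state to the `k`-th coefficient -/
def term (l : Finset C → ℕ) (k : ℕ) (S : Finset C) : ℤ :=
  ∑ i ∈ range (k + 1), if l ∅ + S.card + 2 * i = 2 * k + l S then
    (-1) ^ (l S - 1) * ((l S - 1).choose i : ℤ) else 0

/-- model term -/
def term' (V k : ℕ) (s : ℕ) : ℤ :=
  if s ≤ k then (-1) ^ (V - 1 + s) * ((V - 1 - s).choose (k - s) : ℤ) else 0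

theorem LoopData.term_gen (h : LoopData l near K) (k : ℕ) {S : Finset C} (hS : Gen near S) :
    term l k S = term' (l ∅) k S.card := by
  have h1 := h.ind0 S hS
  have h2 := h.pos S
  unfold term term'
  by_cases hk : S.card ≤ k
  · rw [if_pos hk]
    rw [Finset.sum_eq_single (k - S.card)]
    · rw [if_pos (by omega)]
      have e1 : l S - 1 = l ∅ - 1 - S.card := by omega
      rw [e1]
      congr 1
      have e2 : l ∅ - 1 + S.card = (l ∅ - 1 - S.card) + 2 * S.card := by omega
      rw [e2, pow_add, pow_mul]
      simp
    · intro i hi hne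
      rw [mem_range] at hi
      rw [if_neg (by omega)]
    · intro hi
      exact absurd (mem_range.mpr (by omega)) hi
  · rw [if_neg hk]
    apply Finset.sum_eq_zero
    intro i _
    rw [if_neg (by omega)]

open Classical in
theorem LoopData.abs_term_le (h : LoopData l near K) (k : ℕ) {S : Finset C} (hS : ¬ Gen near S) :
    |term l k S| ≤ ∑ i ∈ range (k + 1),
      if S ∈ bad l near (k - i) then ((l ∅ + Fintype.card C : ℕ) : ℤ) ^ i else 0 := by
  unfold term
  refine (Finset.abs_sum_le_sum_abs _ _).trans (Finset.sum_le_sum ?_)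
  intro i hi
  rw [mem_range] at hi
  by_cases hc : l ∅ + S.card + 2 * i = 2 * k + l S
  · rw [if_pos hc, if_pos]
    · rw [abs_mul, abs_pow, abs_neg, abs_one, one_pow, one_mul, Nat.abs_cast]
      have h1 : (l S - 1).choose i ≤ (l ∅ + Fintype.card C) ^ i := by
        refine (Nat.choose_le_pow _ _).trans (Nat.pow_le_pow_left ?_ _)
        have h2 := (h.le_of_subset (Finset.empty_subset S)).1
        have h3 := Finset.card_le_univ S
        simp only [card_empty] at h2
        omega
      exact_mod_cast h1
    · unfold bad
      simp only [mem_filter, mem_univ, true_and]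
      exact ⟨hS, by omega⟩
  · rw [if_neg hc, abs_zero]
    split_ifs <;> positivity

open Classical in
theorem LoopData.abs_term'_le (h : LoopData l near K) (k : ℕ) {S : Finset C} (hS : ¬ Gen near S) :
    |term' (l ∅) k S.card| ≤ ∑ i ∈ range (k + 1),
      if S ∈ bad l near (k - i) then ((l ∅ + Fintype.card C : ℕ) : ℤ) ^ i else 0 := by
  unfold term'
  have hnn : ∀ i ∈ range (k + 1), (0 : ℤ) ≤
      (if S ∈ bad l near (k - i) then ((l ∅ + Fintype.card C : ℕ) : ℤ) ^ i else 0) := by
    intro i _
    split_ifs <;> positivity
  by_cases hk : S.card ≤ k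
  · rw [if_pos hk]
    refine le_trans ?_ (Finset.single_le_sum hnn (mem_range.mpr (by omega : k - S.card < k + 1)))
    rw [if_pos]
    · rw [abs_mul, abs_pow, abs_neg, abs_one, one_pow, one_mul, Nat.abs_cast]
      have h1 : (l ∅ - 1 - S.card).choose (k - S.card) ≤
          (l ∅ + Fintype.card C) ^ (k - S.card) := by
        refine (Nat.choose_le_pow _ _).trans (Nat.pow_le_pow_left ?_ _)
        omega
      exact_mod_cast h1
    · unfold bad
      simp only [mem_filter, mem_univ, true_and]
      refine ⟨hS, ?_⟩
      have h2 := (h.le_of_subset (Finset.empty_subset S)).2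
      simp only [card_empty] at h2
      omega
  · rw [if_neg hk, abs_zero]
    exact Finset.sum_nonneg hnn

/-- main estimate -/
theorem LoopData.estimate (h : LoopData l near K) (k : ℕ) :
    |∑ S : Finset C, term l k S - ∑ S : Finset C, term' (l ∅) k S.card| ≤
      2 * (k : ℤ) ^ 2 * ((2 ^ K * (l ∅ + Fintype.card C) : ℕ) : ℤ) ^ (k - 1) := by
  classical
  set W : ℕ := l ∅ + Fintype.card C with hW
  set Z : ℕ := 2 ^ K * W with hZ
  have hpos := h.pos ∅
  have hW1 : 1 ≤ W := by omega
  have hZW : W ≤ Z := by
    rw [hZ]; exact Nat.le_mul_of_pos_left _ (by positivity)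
  have hZ1 : 1 ≤ Z := hW1.trans hZW
  rw [← Finset.sum_sub_distrib]
  have h1 : ∀ S : Finset C, |term l k S - term' (l ∅) k S.card| ≤
      2 * ∑ i ∈ range (k + 1), if S ∈ bad l near (k - i) then ((W : ℕ) : ℤ) ^ i else 0 := by
    intro S
    by_cases hS : Gen near S
    · rw [h.term_gen k hS, sub_self, abs_zero]
      apply mul_nonneg (by norm_num)
      apply Finset.sum_nonneg
      intro i _
      split_ifs <;> positivity
    · have e1 := h.abs_term_le k hS
      have e2 := h.abs_term'_le k hS
      have e3 := abs_sub (term l k S) (term' (l ∅) k S.card)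
      rw [← hW] at e1 e2
      linarith
  calc _ ≤ ∑ S : Finset C, |term l k S - term' (l ∅) k S.card| := Finset.abs_sum_le_sum_abs _ _
    _ ≤ ∑ S : Finset C, 2 * ∑ i ∈ range (k + 1),
          (if S ∈ bad l near (k - i) then ((W : ℕ) : ℤ) ^ i else 0) :=
        Finset.sum_le_sum (fun S _ => h1 S)
    _ = 2 * ∑ i ∈ range (k + 1), ((bad l near (k - i)).card : ℤ) * (W : ℤ) ^ i := by
        rw [← Finset.mul_sum, Finset.sum_comm]
        congr 1
        apply Finset.sum_congr rfl
        intro i _
        rw [← Finset.sum_filter, Finset.sum_const, nsmul_eq_mul]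
        congr 2
        congr 1
        ext S; simp
    _ ≤ 2 * ∑ i ∈ range (k + 1), (if i < k then (k : ℤ) * (Z : ℤ) ^ (k - 1) else 0) := by
        apply mul_le_mul_of_nonneg_left _ (by norm_num)
        apply Finset.sum_le_sum
        intro i hi
        rw [mem_range] at hi
        have h2 := h.card_bad (k - i)
        rw [← hW, ← hZ] at h2
        by_cases hik : i < k
        · rw [if_pos hik]
          have h3 : (bad l near (k - i)).card * W ^ i ≤ k * Z ^ (k - 1) := by
            calc _ ≤ ((k - i) * Z ^ (k - i - 1)) * Z ^ i :=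
                  Nat.mul_le_mul h2 (Nat.pow_le_pow_left hZW _)
              _ = (k - i) * Z ^ (k - 1) := by
                  rw [mul_assoc, ← pow_add]; congr 2; omega
              _ ≤ k * Z ^ (k - 1) := Nat.mul_le_mul_right _ (by omega)
          exact_mod_cast h3
        · rw [if_neg hik]
          have h4 : k - i = 0 := by omega
          rw [h4] at h2 ⊢
          simp only [zero_mul, Nat.le_zero] at h2
          rw [h2]; simp
    _ ≤ 2 * (k : ℤ) ^ 2 * (Z : ℤ) ^ (k - 1) := by
        rw [Finset.sum_range_succ, if_neg (lt_irrefl k), add_zero]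
        have h5 : ∑ i ∈ range k, (if i < k then (k : ℤ) * (Z : ℤ) ^ (k - 1) else 0) =
            ∑ i ∈ range k, (k : ℤ) * (Z : ℤ) ^ (k - 1) := by
          apply Finset.sum_congr rfl
          intro i hi
          rw [if_pos (mem_range.mp hi)]
        rw [h5, Finset.sum_const, card_range, nsmul_eq_mul]
        apply le_of_eq; ring

/-- the model sum -/
theorem model_sum (V k : ℕ) :
    ∑ S : Finset C, term' V k S.card =
      ∑ j ∈ range (k + 1), ((Fintype.card C).choose j : ℤ) * term' V k j := by
  have h1 : ∑ S : Finset C, term' V k S.card =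
      ∑ j ∈ range (Fintype.card C + 1), (Fintype.card C).choose j • term' V k j := by
    have := Finset.sum_powerset_apply_card (fun j => term' V k j) (x := (univ : Finset C))
    rw [card_univ] at this
    rw [← this, Finset.powerset_univ]
  rw [h1]
  have h2 : ∑ j ∈ range (Fintype.card C + 1), (Fintype.card C).choose j • term' V k j =
      ∑ j ∈ range (Fintype.card C + k + 1), (Fintype.card C).choose j • term' V k j := by
    apply Finset.sum_subset
    · intro x hx; rw [mem_range] at hx ⊢; omega
    · intro x _ hx
      rw [mem_range] at hx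
      rw [Nat.choose_eq_zero_of_lt (by omega), zero_smul]
  have h3 : ∑ j ∈ range (k + 1), ((Fintype.card C).choose j : ℤ) * term' V k j =
      ∑ j ∈ range (Fintype.card C + k + 1), ((Fintype.card C).choose j : ℤ) * term' V k j := by
    apply Finset.sum_subset
    · intro x hx; rw [mem_range] at hx ⊢; omega
    · intro x _ hx
      rw [mem_range] at hx
      unfold term'
      rw [if_neg (by omega), mul_zero]
  rw [h2, h3]
  apply Finset.sum_congr rfl
  intro j _
  rw [nsmul_eq_mul]

/-- the top coefficient is a unit -/
theorem LoopData.zero_coeff (h : LoopData l near K) :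
    |∑ S : Finset C, term l 0 S| = 1 := by
  have h1 : ∑ S : Finset C, term l 0 S = term l 0 ∅ := by
    apply Finset.sum_eq_single
    · intro S _ hS
      obtain ⟨e, he⟩ := Finset.nonempty_iff_ne_empty.mpr hS
      unfold term
      apply Finset.sum_eq_zero
      intro i hi
      rw [if_neg]
      have h2 := h.ind0 {e} (by intro a ha b hb hab; simp at ha hb; exact absurd (ha.trans hb.symm) hab)
      have h3 := (h.le_of_subset (Finset.singleton_subset_iff.mpr he)).1
      simp only [card_singleton] at h2 h3
      have h4 := h.pos {e}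
      omega
    · intro h'; exact absurd (mem_univ _) h'
  rw [h1]
  unfold term
  simp

/-- nothing above the top coefficient -/
theorem LoopData.nonneg_rank (h : LoopData l near K) (S : Finset C) : l S ≤ l ∅ + S.card := by
  have h2 := (h.le_of_subset (Finset.empty_subset S)).1
  simp only [card_empty] at h2
  omega

end Abstract

end Pool.Agent.R805.Weave
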