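import Mathlib

/-!
# The Jones polynomial of closed braids and weaving knots: definitions

A braid word with `N` letters on `n + 1` strands is a function `w : Fin N → Fin n × Bool`: the letter
`w τ = (i, true)` is the positive generator `σ_{i+1}`, and `w τ = (i, false)` is its inverse; it crosses
the strands in positions `i` and `i + 1` (counted from `0`) between the levels `τ` and `τ + 1`.
-/

namespace Pool.Agent.R805.Weave

open LaurentPolynomial

/-- A point of the closed braid diagram: a level in `0, …, N` and a strand position in `0, …, n`. -/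
abbrev Pt (n N : ℕ) := Fin (N + 1) × Fin (n + 1)

/-- The arcs of the closed diagram in which the crossing `τ` (between the strands `c τ` and `c τ + 1`)
is smoothed vertically (as the identity braid) if `s τ = true` and horizontally (cup and cap) if
`s τ = false`. -/
inductive Arc {n N : ℕ} (c : Fin N → Fin n) (s : Fin N → Bool) : Pt n N → Pt n N → Prop
  | through (τ : Fin N) (j : Fin (n + 1)) : j ≠ (c τ).castSucc → j ≠ (c τ).succ →
      Arc c s (τ.castSucc, j) (τ.succ, j)
  | left (τ : Fin N) : s τ = true → Arc c s (τ.castSucc, (c τ).castSucc) (τ.succ, (c τ).castSucc)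
  | right (τ : Fin N) : s τ = true → Arc c s (τ.castSucc, (c τ).succ) (τ.succ, (c τ).succ)
  | bottom (τ : Fin N) : s τ = false →
      Arc c s (τ.castSucc, (c τ).castSucc) (τ.castSucc, (c τ).succ)
  | top (τ : Fin N) : s τ = false → Arc c s (τ.succ, (c τ).castSucc) (τ.succ, (c τ).succ)
  | close (j : Fin (n + 1)) : Arc c s (0, j) (Fin.last N, j)

/-- The number of loops of a complete smoothing: the number of connected components of the
union of the arcs. -/
noncomputable def loops {n N : ℕ} (c : Fin N → Fin n) (s : Fin N → Bool) : ℕ :=
  Nat.card (Quot (Arc c s))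

/-- The Kauffman bracket (in the variable `A = T 1`, normalised to `1` on the unknot) of the closure
of the braid word `w`: a positive crossing is `A • (vertical) + A⁻¹ • (horizontal)`, a negative
crossing is `A⁻¹ • (vertical) + A • (horizontal)`, and a state with `L` loops has the weight
`(-A² - A⁻²) ^ (L - 1)`. -/
noncomputable def bracket {n N : ℕ} (w : Fin N → Fin n × Bool) : LaurentPolynomial ℤ :=
  ∑ s : Fin N → Bool, T (∑ τ, if s τ = (w τ).2 then 1 else -1) *
    (-T 2 - T (-2)) ^ (loops (fun τ => (w τ).1) s - 1)

/-- The writhe of the closed braid (all strands oriented upwards). -/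
def writhe {n N : ℕ} (w : Fin N → Fin n × Bool) : ℤ := ∑ τ, if (w τ).2 then 1 else -1

/-- The Jones polynomial of the closure of the braid word `w`, written in the variable `A`, where
`t = A⁻⁴`: `V = (-A³)^(-writhe) ⟨w⟩`. -/
noncomputable def jones {n N : ℕ} (w : Fin N → Fin n × Bool) : LaurentPolynomial ℤ :=
  C (((-1 : ℤˣ) ^ writhe w : ℤˣ) : ℤ) * T (-3 * writhe w) * bracket w

/-- The largest exponent of `A` in a nonzero Laurent polynomial. -/
noncomputable def maxExp (P : LaurentPolynomial ℤ) : ℤ := sSup {x : ℤ | P.coeff x ≠ 0}

/-- The smallest exponent of `A` in a nonzero Laurent polynomial. -/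
noncomputable def minExp (P : LaurentPolynomial ℤ) : ℤ := sInf {x : ℤ | P.coeff x ≠ 0}

/-- The `j`-th twist number, for a Jones polynomial written in the variable `A` with `t = A⁻⁴`: one
step of the exponent of `t` is four steps of the exponent of `A`; the largest exponent of `t` is the
smallest exponent of `A` and conversely. -/
noncomputable def twistNumber (P : LaurentPolynomial ℤ) (j : ℕ) : ℤ :=
  |P.coeff (maxExp P - 4 * j)| + |P.coeff (minExp P + 4 * j)|

/-- The braid word `(σ₁ σ₂⁻¹ σ₃ σ₄⁻¹ ⋯ σ_n^{±1})^m` of the weaving knot `W(n+1, m)`; the letter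
number `τ` uses the generator number `τ mod n` (counted from `0`), which is positive when
`τ mod n` is even. -/
def weaving (n m : ℕ) : Fin (m * n) → Fin n × Bool :=
  fun τ => (τ.modNat, decide ((τ.modNat : ℕ) % 2 = 0))

end Pool.Agent.R805.Weave
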