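import Pool.Agent.R805.Weave.Labels

/-! The loop counts of the weaving diagrams satisfy the axioms of `LoopData`. -/

namespace Pool.Agent.R805.Weave

open Finset

variable {n m β : ℕ}

/-- rows at cyclic distance at most two -/
def nearW (n m : ℕ) (a b : Fin (m * n)) : Prop :=
  rw' n m b = rw' n m a + 2 ∨ rw' n m b = rw' n m a + 1 ∨ rw' n m b = rw' n m a ∨
    rw' n m a = rw' n m b + 1 ∨ rw' n m a = rw' n m b + 2

/-- rows at cyclic distance at most one -/
def closeW (n m : ℕ) (a b : Fin (m * n)) : Prop :=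
  rw' n m b = rw' n m a + 1 ∨ rw' n m b = rw' n m a ∨ rw' n m a = rw' n m b + 1

theorem two_ne (hm : 3 ≤ m) : (2 : ZMod m) ≠ 0 := by
  intro h
  have h1 : ((2 : ℕ) : ZMod m) = 0 := by exact_mod_cast h
  rw [ZMod.natCast_eq_zero_iff] at h1
  have := Nat.le_of_dvd (by norm_num) h1
  omega

theorem one_ne (hm : 3 ≤ m) : (1 : ZMod m) ≠ 0 := by
  intro h
  have h1 : ((1 : ℕ) : ZMod m) = 0 := by exact_mod_cast h
  rw [ZMod.natCast_eq_zero_iff] at h1
  have := Nat.le_of_dvd (by norm_num) h1
  omega

theorem rw_inj {a b : Fin (m * n)} (h : rw' n m a = rw' n m b)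
    (h' : (a : ℕ) % n = (b : ℕ) % n) : a = b := by
  have ha : (a : ℕ) / n < m := (a.divNat).2
  have hb : (b : ℕ) / n < m := (b.divNat).2
  unfold rw' at h
  rw [ZMod.natCast_eq_natCast_iff', Nat.mod_eq_of_lt ha, Nat.mod_eq_of_lt hb] at h
  apply Fin.ext
  rw [← Nat.div_add_mod (a : ℕ) n, ← Nat.div_add_mod (b : ℕ) n, h, h']

theorem par (τ : Fin (m * n)) (β : ℕ) :
    ((τ : ℕ) % n + β) % 2 = 1 ∨ ((τ : ℕ) % n + β) % 2 = 0 := by omega

theorem touch {x : ℕ × ZMod m} {σ : Fin (m * n)} (hx : x = uu n m β σ ∨ x = vv n m β σ)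
    (h1 : 1 ≤ x.1) (h2 : x.1 ≤ n) : x.2 = rw' n m σ ∨ x.2 = rw' n m σ + 1 := by
  rcases par σ β with hp | hp
  · rw [uu_e σ hp, vv_e σ hp] at hx
    rcases hx with rfl | rfl
    · exact Or.inl rfl
    · exact Or.inr rfl
  · rw [uu_i σ hp, vv_i σ hp] at hx
    rcases hx with rfl | rfl
    · simp only at h1 h2 ⊢
      rw [if_neg (by omega)]
      exact Or.inr rfl
    · simp only at h1 h2 ⊢
      rw [if_neg (by omega)]
      exact Or.inl rfl

theorem nonhub (hn : 2 ≤ n) (τ : Fin (m * n)) :
    ∃ x : ℕ × ZMod m, 1 ≤ x.1 ∧ x.1 ≤ n ∧ (x = uu n m β τ ∨ x = vv n m β τ) := by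
  obtain ⟨_, hlt⟩ := val_decomp τ
  rcases par τ β with hp | hp
  · refine ⟨_, ?_, ?_, Or.inl rfl⟩ <;> rw [uu_e τ hp] <;> simp only <;> omega
  · by_cases h0 : (τ : ℕ) % n = 0
    · refine ⟨_, ?_, ?_, Or.inr rfl⟩ <;> rw [vv_i τ hp] <;> simp only <;> omega
    · refine ⟨_, ?_, ?_, Or.inl rfl⟩ <;> rw [uu_i τ hp] <;> simp only <;> omega

theorem uv_ne (hm : 3 ≤ m) (τ : Fin (m * n)) : uu n m β τ ≠ vv n m β τ := by
  intro h
  rcases par τ β with hp | hp
  · rw [uu_e τ hp, vv_e τ hp, Prod.mk.injEq] at h
    exact one_ne hm (left_eq_add.mp h.2)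
  · rw [uu_i τ hp, vv_i τ hp, Prod.mk.injEq] at h
    omega

theorem no_parallel (hn : 2 ≤ n) (hm : 3 ≤ m) {b e : Fin (m * n)} (hbe : b ≠ e) :
    ¬ (uu n m β b = uu n m β e ∧ vv n m β b = vv n m β e) ∧
    ¬ (uu n m β b = vv n m β e ∧ vv n m β b = uu n m β e) := by
  constructor
  · rintro ⟨h1, h2⟩
    rcases par b β with hb | hb <;> rcases par e β with he | he
    · rw [uu_e b hb, uu_e e he, Prod.mk.injEq] at h1
      exact hbe (rw_inj h1.2 (by omega))
    · rw [uu_e b hb, uu_i e he, Prod.mk.injEq] at h1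
      rw [vv_e b hb, vv_i e he, Prod.mk.injEq] at h2
      omega
    · rw [uu_i b hb, uu_e e he, Prod.mk.injEq] at h1
      rw [vv_i b hb, vv_e e he, Prod.mk.injEq] at h2
      omega
    · rw [uu_i b hb, uu_i e he, Prod.mk.injEq] at h1
      rw [vv_i b hb, vv_i e he, Prod.mk.injEq] at h2
      by_cases h0 : (b : ℕ) % n = 0
      · rw [if_neg (by omega), if_neg (by omega)] at h2
        exact hbe (rw_inj h2.2 h1.1)
      · rw [if_neg h0, if_neg (by omega)] at h1
        exact hbe (rw_inj (add_right_cancel h1.2) h1.1)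
  · rintro ⟨h1, h2⟩
    rcases par b β with hb | hb <;> rcases par e β with he | he
    · rw [uu_e b hb, vv_e e he, Prod.mk.injEq] at h1
      rw [vv_e b hb, uu_e e he, Prod.mk.injEq] at h2
      apply two_ne hm
      have h3 := h2.2
      rw [h1.2] at h3
      have h4 : rw' n m e + 2 = rw' n m e + 0 := by
        rw [add_zero]; linear_combination h3
      exact add_left_cancel h4
    · rw [uu_e b hb, vv_i e he, Prod.mk.injEq] at h1
      rw [vv_e b hb, uu_i e he, Prod.mk.injEq] at h2
      omega
    · rw [uu_i b hb, vv_e e he, Prod.mk.injEq] at h1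
      rw [vv_i b hb, uu_e e he, Prod.mk.injEq] at h2
      omega
    · rw [uu_i b hb, vv_i e he, Prod.mk.injEq] at h1
      rw [vv_i b hb, uu_i e he, Prod.mk.injEq] at h2
      omega

theorem close_of_touch {x : ℕ × ZMod m} {σ τ : Fin (m * n)}
    (hσ : x = uu n m β σ ∨ x = vv n m β σ) (hτ : x = uu n m β τ ∨ x = vv n m β τ)
    (h1 : 1 ≤ x.1) (h2 : x.1 ≤ n) : closeW n m σ τ := by
  unfold closeW
  rcases touch hσ h1 h2 with e1 | e1 <;> rcases touch hτ h1 h2 with e2 | e2
  · right; left; rw [← e1, ← e2]
  · right; right; rw [← e1, ← e2]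
  · left; rw [← e1, ← e2]
  · right; left
    rw [e1] at e2
    exact (add_right_cancel e2).symm

theorem add_far_one (hn : 2 ≤ n) (hm : 3 ≤ m) (S : Finset (Fin (m * n))) (τ : Fin (m * n))
    (hS : ∀ σ ∈ S, ¬ closeW n m σ τ) : lw n m β S = lw n m β (insert τ S) + 1 := by
  have hτ : τ ∉ S := fun h => hS τ h (Or.inr (Or.inl rfl))
  obtain ⟨x, h1, h2, hx⟩ := nonhub (β := β) hn τ
  apply merge hn S τ hτ (fun z => x = z)
  · intro σ hσ
    have e1 : ¬ x = uu n m β σ := fun h => hS σ hσ (close_of_touch (Or.inl h) hx h1 h2)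
    have e2 : ¬ x = vv n m β σ := fun h => hS σ hσ (close_of_touch (Or.inr h) hx h1 h2)
    simp only [e1, e2]
  · have hne := uv_ne (β := β) hm τ
    rcases hx with hx | hx
    · intro h
      exact hne (hx.symm.trans (h.mp hx))
    · intro h
      exact hne ((h.mpr hx).symm.trans hx)

theorem add_far (hn : 2 ≤ n) (hm : 3 ≤ m) (S B : Finset (Fin (m * n)))
    (hB : Gen (nearW n m) B) (hS : ∀ σ ∈ S, ∀ b ∈ B, ¬ closeW n m σ b) :
    lw n m β (S ∪ B) + B.card = lw n m β S := by
  induction B using Finset.induction_on with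
  | empty => simp
  | insert b B hb ih =>
    have h1 : S ∪ insert b B = insert b (S ∪ B) := by
      ext x; simp only [mem_union, mem_insert]; tauto
    rw [h1, Finset.card_insert_of_notMem hb]
    have hB' : Gen (nearW n m) B := fun x hx y hy hxy =>
      hB x (Finset.mem_insert_of_mem hx) y (Finset.mem_insert_of_mem hy) hxy
    have ih' := ih hB' (fun σ hσ x hx => hS σ hσ x (Finset.mem_insert_of_mem hx))
    have h2 := add_far_one (β := β) hn hm (S ∪ B) b (by
      intro σ hσ
      rcases Finset.mem_union.mp hσ with h | h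
      · exact hS σ h b (Finset.mem_insert_self _ _)
      · intro hc
        refine hB σ (Finset.mem_insert_of_mem h) b (Finset.mem_insert_self _ _) ?_ ?_
        · rintro rfl; exact hb h
        · rcases hc with hc | hc | hc
          · exact Or.inr (Or.inl hc)
          · exact Or.inr (Or.inr (Or.inl hc))
          · exact Or.inr (Or.inr (Or.inr (Or.inl hc))))
    omega

theorem pair_indep (hn : 2 ≤ n) (hm : 3 ≤ m) {b e : Fin (m * n)} (hbe : b ≠ e) :
    lw n m β {b, e} + 2 = lw n m β ∅ := by
  have h1 := add_far_one (β := β) hn hm ∅ e (by simp)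
  have h2 : insert e (∅ : Finset (Fin (m * n))) = {e} := rfl
  rw [h2] at h1
  obtain ⟨np1, np2⟩ := no_parallel (β := β) hn hm hbe
  have hb := uv_ne (β := β) hm b
  have hb' : b ∉ ({e} : Finset (Fin (m * n))) := by simpa using hbe
  have h3 : lw n m β {e} = lw n m β (insert b {e}) + 1 := by
    by_cases c1 : uu n m β b = uu n m β e ∨ uu n m β b = vv n m β e
    · by_cases c2 : vv n m β b = uu n m β e ∨ vv n m β b = vv n m β e
      · exfalso
        rcases c1 with c1 | c1 <;> rcases c2 with c2 | c2
        · exact hb (c1.trans c2.symm)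
        · exact np1 ⟨c1, c2⟩
        · exact np2 ⟨c1, c2⟩
        · exact hb (c1.trans c2.symm)
      · push Not at c2
        apply merge hn {e} b hb' (fun z => vv n m β b = z)
        · intro σ hσ
          rw [Finset.mem_singleton] at hσ
          subst hσ
          simp only [c2.1, c2.2]
        · intro h; exact hb (h.mpr rfl).symm
    · push Not at c1
      apply merge hn {e} b hb' (fun z => uu n m β b = z)
      · intro σ hσ
        rw [Finset.mem_singleton] at hσ
        subst hσ
        simp only [c1.1, c1.2]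
      · intro h; exact hb (h.mp rfl)
  have h4 : ({b, e} : Finset (Fin (m * n))) = insert b {e} := rfl
  rw [h4]
  omega

theorem ind1W (hn : 2 ≤ n) (hm : 3 ≤ m) (B : Finset (Fin (m * n)))
    (hB : Gen (nearW n m) B) (e : Fin (m * n)) (he : e ∉ B) :
    lw n m β (insert e B) + B.card + 1 = lw n m β ∅ := by
  by_cases hc : ∃ b ∈ B, closeW n m e b
  · obtain ⟨b, hb, hcb⟩ := hc
    have hbe : b ≠ e := fun h => he (h ▸ hb)
    have hB' : Gen (nearW n m) (B.erase b) := fun x hx y hy hxy =>
      hB x (Finset.mem_of_mem_erase hx) y (Finset.mem_of_mem_erase hy) hxy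
    have h1 := add_far (β := β) hn hm {b, e} (B.erase b) hB' (by
      intro σ hσ x hx
      have hx1 := Finset.mem_erase.mp hx
      have hnear : ¬ nearW n m b x := hB b hb x hx1.2 (Ne.symm hx1.1)
      rw [Finset.mem_insert, Finset.mem_singleton] at hσ
      rcases hσ with rfl | rfl
      · intro hc; apply hnear
        rcases hc with hc | hc | hc
        · exact Or.inr (Or.inl hc)
        · exact Or.inr (Or.inr (Or.inl hc))
        · exact Or.inr (Or.inr (Or.inr (Or.inl hc)))
      · intro hc; apply hnear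
        unfold nearW
        rcases hc with hc | hc | hc <;> rcases hcb with hd | hd | hd
        · right; right; left; rw [hc, hd]
        · right; left; rw [hc, hd]
        · left; rw [hc, hd]; ring
        · right; right; right; left; rw [hc, hd]
        · right; right; left; rw [hc, hd]
        · right; left; rw [hc, hd]
        · right; right; right; right; rw [hd, hc]; ring
        · right; right; right; left; rw [hd, hc]
        · right; right; left
          rw [hc] at hd; exact add_right_cancel hd)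
    have h2 := pair_indep (β := β) hn hm hbe
    have h3 : ({b, e} : Finset (Fin (m * n))) ∪ B.erase b = insert e B := by
      ext x
      simp only [mem_union, mem_insert, mem_singleton, mem_erase]
      constructor
      · rintro ((rfl | rfl) | h)
        · exact Or.inr hb
        · exact Or.inl rfl
        · exact Or.inr h.2
      · rintro (rfl | h)
        · exact Or.inl (Or.inr rfl)
        · by_cases hxb : x = b
          · exact Or.inl (Or.inl hxb)
          · exact Or.inr ⟨hxb, h⟩
    rw [h3, Finset.card_erase_of_mem hb] at h1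
    have h4 : 1 ≤ B.card := Finset.card_pos.mpr ⟨b, hb⟩
    omega
  · push Not at hc
    have h1 := add_far (β := β) hn hm {e} B hB (by
      intro σ hσ b hb
      rw [Finset.mem_singleton] at hσ
      subst hσ
      exact hc b hb)
    have h2 := add_far_one (β := β) hn hm ∅ e (by simp)
    have h3 : insert e (∅ : Finset (Fin (m * n))) = {e} := rfl
    have h4 : ({e} : Finset (Fin (m * n))) ∪ B = insert e B := rfl
    rw [h3] at h2
    rw [h4] at h1
    omega

open Classical in
theorem card_nearW (b : Fin (m * n)) : (univ.filter (nearW n m b)).card ≤ 5 * n := by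
  classical
  have h1 : (univ.filter (nearW n m b)).card ≤
      ((({rw' n m b + 2, rw' n m b + 1, rw' n m b, rw' n m b - 1, rw' n m b - 2} :
        Finset (ZMod m))) ×ˢ (range n)).card := by
    apply Finset.card_le_card_of_injOn (fun τ : Fin (m * n) => (rw' n m τ, (τ : ℕ) % n))
    · intro τ hτ
      simp only [coe_filter, mem_univ, true_and, Set.mem_ofPred_eq] at hτ
      simp only [coe_product, Set.mem_prod, mem_coe, mem_insert, mem_singleton, mem_range]
      refine ⟨?_, (val_decomp τ).2⟩
      rcases hτ with h | h | h | h | h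
      · exact Or.inl h
      · exact Or.inr (Or.inl h)
      · exact Or.inr (Or.inr (Or.inl h))
      · right; right; right; left; rw [h]; ring
      · right; right; right; right; rw [h]; ring
    · intro x _ y _ hxy
      simp only [Prod.mk.injEq] at hxy
      exact rw_inj hxy.1 hxy.2
  refine h1.trans ?_
  rw [card_product, card_range]
  apply Nat.mul_le_mul_right
  exact Finset.card_le_five

theorem loopDataW (hn : 2 ≤ n) (hm : 3 ≤ m) : LoopData (lw n m β) (nearW n m) (5 * n) where
  up := fun S τ h => lw_up S τ h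
  down := fun S τ h => lw_down S τ h
  pos := lw_pos
  refl := fun b => Or.inr (Or.inr (Or.inl rfl))
  symm := fun a b h => by
    unfold nearW at *
    tauto
  card := fun b => by
    have := card_nearW b
    convert this
  ind0 := fun B hB => by
    have := add_far (β := β) hn hm ∅ B hB (by simp)
    rwa [Finset.empty_union] at this
  ind1 := fun B hB e he => ind1W hn hm B hB e he

end Pool.Agent.R805.Weave
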