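import Pool.Agent.R805.Weave.Toggle
import Pool.Agent.R805.Weave.Count

/-! Labels of the loops of the base states of the weaving diagrams. -/

namespace Pool.Agent.R805.Weave

open Finset

/-- face column of a strand -/
def colF (β j : ℕ) : ℕ := if (j + β) % 2 = 1 then j + 1 else j

/-- labels of points -/
def labN (n m β k j : ℕ) : ℕ × ZMod m :=
  (colF β j, if colF β j = 0 ∨ colF β j = n + 1 then 0 else
    (((k + n - colF β j) / n : ℕ) : ZMod m))

theorem row_formula {n q i c : ℕ} (hi : i ≤ n) (hc1 : 1 ≤ c) (hc2 : c ≤ n) :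
    (q * n + i + n - c) / n = q + (if c ≤ i then 1 else 0) := by
  have hn : 0 < n := by omega
  split_ifs with h
  · have : q * n + i + n - c = (i - c) + (q + 1) * n := by
      rw [add_mul]; omega
    rw [this, Nat.add_mul_div_right _ _ hn, Nat.div_eq_of_lt (by omega)]
    omega
  · have : q * n + i + n - c = (i + n - c) + q * n := by omega
    rw [this, Nat.add_mul_div_right _ _ hn, Nat.div_eq_of_lt (by omega)]
    omega

/-- base state -/
def base (n m β : ℕ) : Fin (m * n) → Bool := fun τ => decide (((τ.modNat : ℕ) + β) % 2 = 0)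

/-- toggled state -/
def tog {N : ℕ} (s : Fin N → Bool) (S : Finset (Fin N)) : Fin N → Bool :=
  fun τ => if τ ∈ S then !s τ else s τ

/-- number of loops of the toggled state -/
noncomputable def lw (n m β : ℕ) (S : Finset (Fin (m * n))) : ℕ :=
  loops (fun τ : Fin (m * n) => τ.modNat) (tog (base n m β) S)

/-- label of a point -/
def lab (n m β : ℕ) (z : Pt n (m * n)) : ℕ × ZMod m := labN n m β z.1 z.2

/-- column map -/
abbrev cw (n m : ℕ) : Fin (m * n) → Fin n := fun τ => τ.modNat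

/-- left label -/
def uu (n m β : ℕ) (τ : Fin (m * n)) : ℕ × ZMod m := lab n m β (P00 (cw n m) τ)
/-- right label -/
def vv (n m β : ℕ) (τ : Fin (m * n)) : ℕ × ZMod m := lab n m β (P11 (cw n m) τ)

/-- row of a crossing -/
def rw' (n m : ℕ) (τ : Fin (m * n)) : ZMod m := (((τ : ℕ) / n : ℕ) : ZMod m)

theorem val_decomp {n m : ℕ} (τ : Fin (m * n)) :
    (τ : ℕ) = ((τ : ℕ) / n) * n + (τ : ℕ) % n ∧ (τ : ℕ) % n < n := by
  have hn : 0 < n := by
    rcases Nat.eq_zero_or_pos n with h | h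
    · subst h; exact absurd τ.2 (by simp)
    · exact h
  exact ⟨(Nat.div_add_mod' (τ : ℕ) n).symm, Nat.mod_lt _ hn⟩

theorem labN_level {n m β q i j : ℕ} (hi : i ≤ n) (hj : j ≤ n) :
    labN n m β (q * n + i) j = (colF β j, if colF β j = 0 ∨ colF β j = n + 1 then 0 else
      ((q : ZMod m) + (if colF β j ≤ i then 1 else 0))) := by
  unfold labN
  by_cases h : colF β j = 0 ∨ colF β j = n + 1
  · rw [if_pos h, if_pos h]
  · rw [if_neg h, if_neg h]
    have hc : colF β j ≤ n + 1 := by unfold colF; split_ifs <;> omega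
    rw [row_formula hi (by omega) (by omega)]
    push_cast
    rfl

theorem lab_through {n m β : ℕ} (τ : Fin (m * n)) (j : Fin (n + 1))
    (h1 : j ≠ (cw n m τ).castSucc) (h2 : j ≠ (cw n m τ).succ) :
    lab n m β (τ.castSucc, j) = lab n m β (τ.succ, j) := by
  obtain ⟨hd, hlt⟩ := val_decomp τ
  have e1 : (j : ℕ) ≠ (τ : ℕ) % n := fun h => h1 (Fin.ext (by simpa using h))
  have e2 : (j : ℕ) ≠ (τ : ℕ) % n + 1 := fun h => h2 (Fin.ext (by simpa using h))
  unfold lab
  simp only [Fin.val_castSucc, Fin.val_succ]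
  have hj : (j : ℕ) ≤ n := by omega
  set q := (τ : ℕ) / n
  set i := (τ : ℕ) % n
  rw [hd, add_assoc, labN_level hlt.le hj, labN_level (by omega) hj]
  have : colF β j ≠ i + 1 := by unfold colF; split_ifs <;> omega
  congr 1
  by_cases h0 : colF β (j : ℕ) = 0 ∨ colF β (j : ℕ) = n + 1
  · rw [if_pos h0, if_pos h0]
  · rw [if_neg h0, if_neg h0]
    by_cases h3 : colF β (j : ℕ) ≤ i
    · rw [if_pos h3, if_pos (by omega)]
    · rw [if_neg h3, if_neg (by omega)]

theorem lab_close {n m β : ℕ} (hn : 1 ≤ n) (j : Fin (n + 1)) :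
    lab n m β (0, j) = lab n m β (Fin.last (m * n), j) := by
  unfold lab
  simp only [Fin.val_zero, Fin.val_last]
  have hj : (j : ℕ) ≤ n := by omega
  have e0 : labN n m β 0 j = labN n m β (0 * n + 0) j := by simp
  have e1 : labN n m β (m * n) j = labN n m β (m * n + 0) j := by simp
  rw [e0, e1, labN_level (by omega) hj, labN_level (by omega) hj]
  simp

section Vals
variable {n m β : ℕ} (τ : Fin (m * n))

theorem uu_e (h : ((τ : ℕ) % n + β) % 2 = 1) : uu n m β τ = ((τ : ℕ) % n + 1, rw' n m τ) := by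
  obtain ⟨hd, hlt⟩ := val_decomp τ
  unfold uu lab P00 rw'
  simp only [Fin.val_castSucc, Fin.coe_modNat]
  set q := (τ : ℕ) / n
  set i := (τ : ℕ) % n
  rw [hd, labN_level hlt.le hlt.le]
  have hc : colF β i = i + 1 := by unfold colF; rw [if_pos h]
  rw [hc, if_neg (by omega), if_neg (by omega), add_zero]

theorem vv_e (h : ((τ : ℕ) % n + β) % 2 = 1) : vv n m β τ = ((τ : ℕ) % n + 1, rw' n m τ + 1) := by
  obtain ⟨hd, hlt⟩ := val_decomp τ
  unfold vv lab P11 rw'
  simp only [Fin.val_succ, Fin.coe_modNat]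
  set q := (τ : ℕ) / n
  set i := (τ : ℕ) % n
  rw [hd, add_assoc, labN_level (by omega) (by omega)]
  have hc : colF β (i + 1) = i + 1 := by unfold colF; rw [if_neg (by omega)]
  rw [hc, if_neg (by omega), if_pos le_rfl]

theorem p01_e (h : ((τ : ℕ) % n + β) % 2 = 1) : lab n m β (P01 (cw n m) τ) = uu n m β τ := by
  obtain ⟨hd, hlt⟩ := val_decomp τ
  rw [uu_e τ h]
  unfold lab P01 rw'
  simp only [Fin.val_castSucc, Fin.val_succ, Fin.coe_modNat]
  set q := (τ : ℕ) / n
  set i := (τ : ℕ) % n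
  rw [hd, labN_level hlt.le (by omega)]
  have hc : colF β (i + 1) = i + 1 := by unfold colF; rw [if_neg (by omega)]
  rw [hc, if_neg (by omega), if_neg (by omega), add_zero]

theorem p10_e (h : ((τ : ℕ) % n + β) % 2 = 1) : lab n m β (P10 (cw n m) τ) = vv n m β τ := by
  obtain ⟨hd, hlt⟩ := val_decomp τ
  rw [vv_e τ h]
  unfold lab P10 rw'
  simp only [Fin.val_castSucc, Fin.val_succ, Fin.coe_modNat]
  set q := (τ : ℕ) / n
  set i := (τ : ℕ) % n
  rw [hd, add_assoc, labN_level (by omega) hlt.le]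
  have hc : colF β i = i + 1 := by unfold colF; rw [if_pos h]
  rw [hc, if_neg (by omega), if_pos le_rfl]

theorem uu_i (h : ((τ : ℕ) % n + β) % 2 = 0) :
    uu n m β τ = ((τ : ℕ) % n, if (τ : ℕ) % n = 0 then 0 else rw' n m τ + 1) := by
  obtain ⟨hd, hlt⟩ := val_decomp τ
  unfold uu lab P00 rw'
  simp only [Fin.val_castSucc, Fin.coe_modNat]
  set q := (τ : ℕ) / n
  set i := (τ : ℕ) % n
  rw [hd, labN_level hlt.le hlt.le]
  have hc : colF β i = i := by unfold colF; rw [if_neg (by omega)]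
  rw [hc]
  by_cases h0 : i = 0
  · rw [if_pos (Or.inl h0), if_pos h0]
  · rw [if_neg (by omega), if_neg h0, if_pos le_rfl]

theorem vv_i (h : ((τ : ℕ) % n + β) % 2 = 0) :
    vv n m β τ = ((τ : ℕ) % n + 2, if (τ : ℕ) % n + 2 = n + 1 then 0 else rw' n m τ) := by
  obtain ⟨hd, hlt⟩ := val_decomp τ
  unfold vv lab P11 rw'
  simp only [Fin.val_succ, Fin.coe_modNat]
  set q := (τ : ℕ) / n
  set i := (τ : ℕ) % n
  rw [hd, add_assoc, labN_level (by omega) (by omega)]
  have hc : colF β (i + 1) = i + 2 := by unfold colF; rw [if_pos (by omega)]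
  rw [hc]
  by_cases h0 : i + 2 = n + 1
  · rw [if_pos (Or.inr h0), if_pos h0]
  · rw [if_neg (by omega), if_neg h0, if_neg (by omega), add_zero]

theorem p10_i (h : ((τ : ℕ) % n + β) % 2 = 0) :
    lab n m β (P10 (cw n m) τ) = uu n m β τ := by
  obtain ⟨hd, hlt⟩ := val_decomp τ
  rw [uu_i τ h]
  unfold lab P10 rw'
  simp only [Fin.val_castSucc, Fin.val_succ, Fin.coe_modNat]
  set q := (τ : ℕ) / n
  set i := (τ : ℕ) % n
  rw [hd, add_assoc, labN_level (by omega) hlt.le]
  have hc : colF β i = i := by unfold colF; rw [if_neg (by omega)]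
  rw [hc]
  by_cases h0 : i = 0
  · rw [if_pos (Or.inl h0), if_pos h0]
  · rw [if_neg (by omega), if_neg h0, if_pos (by omega)]

theorem p01_i (h : ((τ : ℕ) % n + β) % 2 = 0) :
    lab n m β (P01 (cw n m) τ) = vv n m β τ := by
  obtain ⟨hd, hlt⟩ := val_decomp τ
  rw [vv_i τ h]
  unfold lab P01 rw'
  simp only [Fin.val_castSucc, Fin.val_succ, Fin.coe_modNat]
  set q := (τ : ℕ) / n
  set i := (τ : ℕ) % n
  rw [hd, labN_level hlt.le (by omega)]
  have hc : colF β (i + 1) = i + 2 := by unfold colF; rw [if_pos (by omega)]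
  rw [hc]
  by_cases h0 : i + 2 = n + 1
  · rw [if_pos (Or.inr h0), if_pos h0]
  · rw [if_neg (by omega), if_neg h0, if_neg (by omega), add_zero]

end Vals

/-- a label function compatible with the toggled crossings is invariant -/
theorem inv_tog {n m β : ℕ} (hn : 1 ≤ n) (S : Finset (Fin (m * n))) (g : ℕ × ZMod m → Prop)
    (hg : ∀ σ ∈ S, (g (uu n m β σ) ↔ g (vv n m β σ))) (a b : Pt n (m * n))
    (hab : Arc (cw n m) (tog (base n m β) S) a b) : g (lab n m β a) ↔ g (lab n m β b) := by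
  have hbase : ∀ τ : Fin (m * n), base n m β τ = decide (((τ : ℕ) % n + β) % 2 = 0) := by
    intro τ; rfl
  cases hab with
  | through τ j h1 h2 => rw [lab_through τ j h1 h2]
  | close j => rw [lab_close hn j]
  | left τ h1 =>
    by_cases hτ : τ ∈ S
    · have h2 : ((τ : ℕ) % n + β) % 2 = 1 := by
        unfold tog at h1; rw [if_pos hτ, hbase] at h1
        have : ¬ ((τ : ℕ) % n + β) % 2 = 0 := by simpa using h1
        omega
      have e1 := p10_e τ h2
      change g (uu n m β τ) ↔ g (lab n m β (P10 (cw n m) τ))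
      rw [e1]; exact hg τ hτ
    · have h2 : ((τ : ℕ) % n + β) % 2 = 0 := by
        unfold tog at h1; rw [if_neg hτ, hbase] at h1
        simpa using h1
      have e1 := p10_i τ h2
      change g (uu n m β τ) ↔ g (lab n m β (P10 (cw n m) τ))
      rw [e1]
  | right τ h1 =>
    by_cases hτ : τ ∈ S
    · have h2 : ((τ : ℕ) % n + β) % 2 = 1 := by
        unfold tog at h1; rw [if_pos hτ, hbase] at h1
        have : ¬ ((τ : ℕ) % n + β) % 2 = 0 := by simpa using h1
        omega
      have e1 := p01_e τ h2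
      change g (lab n m β (P01 (cw n m) τ)) ↔ g (vv n m β τ)
      rw [e1]; exact hg τ hτ
    · have h2 : ((τ : ℕ) % n + β) % 2 = 0 := by
        unfold tog at h1; rw [if_neg hτ, hbase] at h1
        simpa using h1
      have e1 := p01_i τ h2
      change g (lab n m β (P01 (cw n m) τ)) ↔ g (vv n m β τ)
      rw [e1]
  | bottom τ h1 =>
    by_cases hτ : τ ∈ S
    · have h2 : ((τ : ℕ) % n + β) % 2 = 0 := by
        unfold tog at h1; rw [if_pos hτ, hbase] at h1
        simpa using h1
      have e1 := p01_i τ h2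
      change g (uu n m β τ) ↔ g (lab n m β (P01 (cw n m) τ))
      rw [e1]; exact hg τ hτ
    · have h2 : ((τ : ℕ) % n + β) % 2 = 1 := by
        unfold tog at h1; rw [if_neg hτ, hbase] at h1
        have : ¬ ((τ : ℕ) % n + β) % 2 = 0 := by simpa using h1
        omega
      have e1 := p01_e τ h2
      change g (uu n m β τ) ↔ g (lab n m β (P01 (cw n m) τ))
      rw [e1]
  | top τ h1 =>
    by_cases hτ : τ ∈ S
    · have h2 : ((τ : ℕ) % n + β) % 2 = 0 := by
        unfold tog at h1; rw [if_pos hτ, hbase] at h1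
        simpa using h1
      have e1 := p10_i τ h2
      change g (lab n m β (P10 (cw n m) τ)) ↔ g (vv n m β τ)
      rw [e1]; exact hg τ hτ
    · have h2 : ((τ : ℕ) % n + β) % 2 = 1 := by
        unfold tog at h1; rw [if_neg hτ, hbase] at h1
        have : ¬ ((τ : ℕ) % n + β) % 2 = 0 := by simpa using h1
        omega
      have e1 := p10_e τ h2
      change g (lab n m β (P10 (cw n m) τ)) ↔ g (vv n m β τ)
      rw [e1]

theorem tog_insert {N : ℕ} (s : Fin N → Bool) (S : Finset (Fin N)) (τ : Fin N) (hτ : τ ∉ S) :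
    (∀ σ, σ ≠ τ → tog s (insert τ S) σ = tog s S σ) ∧ tog s (insert τ S) τ = !tog s S τ := by
  constructor
  · intro σ hσ
    unfold tog
    by_cases h : σ ∈ S
    · rw [if_pos h, if_pos (Finset.mem_insert_of_mem h)]
    · rw [if_neg h, if_neg (by simp [hσ, h])]
  · unfold tog
    rw [if_pos (Finset.mem_insert_self _ _), if_neg hτ]

/-- merging lemma -/
theorem merge {n m β : ℕ} (hn : 2 ≤ n) (S : Finset (Fin (m * n))) (τ : Fin (m * n)) (hτ : τ ∉ S)
    (g : ℕ × ZMod m → Prop) (hg : ∀ σ ∈ S, (g (uu n m β σ) ↔ g (vv n m β σ)))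
    (hsep : ¬ (g (uu n m β τ) ↔ g (vv n m β τ))) :
    lw n m β S = lw n m β (insert τ S) + 1 := by
  obtain ⟨h1, h2⟩ := tog_insert (base n m β) S τ hτ
  exact loops_toggle_merge (cw n m) h1 h2 (fun z => g (lab n m β z))
    (inv_tog (by omega) S g hg) hsep

theorem lw_up {n m β : ℕ} (S : Finset (Fin (m * n))) (τ : Fin (m * n)) (hτ : τ ∉ S) :
    lw n m β (insert τ S) ≤ lw n m β S + 1 := by
  obtain ⟨h1, h2⟩ := tog_insert (base n m β) S τ hτ
  exact loops_toggle_le (cw n m) (fun σ hσ => (h1 σ hσ).symm)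

theorem lw_down {n m β : ℕ} (S : Finset (Fin (m * n))) (τ : Fin (m * n)) (hτ : τ ∉ S) :
    lw n m β S ≤ lw n m β (insert τ S) + 1 := by
  obtain ⟨h1, h2⟩ := tog_insert (base n m β) S τ hτ
  exact loops_toggle_le (cw n m) (fun σ hσ => (h1 σ hσ))

theorem lw_pos {n m β : ℕ} (S : Finset (Fin (m * n))) : 1 ≤ lw n m β S := by
  unfold lw loops
  have : Nonempty (Quot (Arc (fun τ : Fin (m * n) => τ.modNat) (tog (base n m β) S))) :=
    ⟨Quot.mk _ (0, 0)⟩
  exact Nat.one_le_iff_ne_zero.mpr Nat.card_pos.ne'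

end Pool.Agent.R805.Weave
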