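import Pool.Agent.R805.Weave.Defs

namespace Pool.Agent.R805.Weave

section QuotLemmas
set_option linter.unusedSectionVars false
variable {α : Type*} [Finite α]

/-- add one pair to a relation -/
def addPair (r : α → α → Prop) (x y : α) : α → α → Prop := fun a b => r a b ∨ (a = x ∧ b = y)

theorem card_quot_le_of_le {r r' : α → α → Prop} (h : ∀ a b, r a b → Relation.EqvGen r' a b) :
    Nat.card (Quot r') ≤ Nat.card (Quot r) := by
  have hf : Function.Surjective
      (Quot.lift (Quot.mk r') (fun a b hab => Quot.eqvGen_sound (h a b hab)) : Quot r → Quot r') := by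
    intro z
    induction z using Quot.ind with
    | mk a => exact ⟨Quot.mk r a, rfl⟩
  exact Nat.card_le_card_of_surjective _ hf

theorem quot_proj_aux (r : α → α → Prop) (x y : α) (a b : α) (h : r a b) :
    Quot.mk (addPair r x y) a = Quot.mk (addPair r x y) b := Quot.sound (Or.inl h)

open Classical in
/-- collapse map -/
noncomputable def collapse (r : α → α → Prop) (x y : α) : Quot (addPair r x y) → Quot r :=
  Quot.lift (fun a => if Quot.mk r a = Quot.mk r y then Quot.mk r x else Quot.mk r a) (by
    rintro a b (hab | ⟨rfl, rfl⟩)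
    · have : Quot.mk r a = Quot.mk r b := Quot.sound hab
      simp only [this]
    · simp)

/-- projection -/
def proj (r : α → α → Prop) (x y : α) : Quot r → Quot (addPair r x y) :=
  Quot.lift (Quot.mk _) (quot_proj_aux r x y)

theorem collapse_proj (r : α → α → Prop) (x y : α) (a : Quot r) (ha : a ≠ Quot.mk r y) :
    collapse r x y (proj r x y a) = a := by
  induction a using Quot.ind with
  | mk a => simp [collapse, proj, ha]

open Classical in
theorem card_quot_addPair_le (r : α → α → Prop) (x y : α) :
    Nat.card (Quot r) ≤ Nat.card (Quot (addPair r x y)) + 1 := by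
  rw [← Finite.card_option]
  refine Nat.card_le_card_of_injective
    (fun a => if a = Quot.mk r y then none else some (proj r x y a)) ?_
  intro a b hab
  by_cases ha : a = Quot.mk r y <;> by_cases hb : b = Quot.mk r y
  · rw [ha, hb]
  · simp [ha, hb] at hab
  · simp [ha, hb] at hab
  · simp only [ha, hb, if_false, Option.some.injEq] at hab
    rw [← collapse_proj r x y a ha, ← collapse_proj r x y b hb, hab]

open Classical in
theorem card_quot_addPair_eq (r : α → α → Prop) (x y : α) (hxy : Quot.mk r x ≠ Quot.mk r y) :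
    Nat.card (Quot r) = Nat.card (Quot (addPair r x y)) + 1 := by
  apply le_antisymm (card_quot_addPair_le r x y)
  rw [← Finite.card_option]
  refine Nat.card_le_card_of_surjective
    (fun a => if a = Quot.mk r y then none else some (proj r x y a)) ?_
  intro z
  cases z with
  | none => exact ⟨Quot.mk r y, by simp⟩
  | some z =>
    induction z using Quot.ind with
    | mk a =>
      by_cases ha : Quot.mk r a = Quot.mk r y
      · refine ⟨Quot.mk r x, ?_⟩
        have h1 : proj r x y (Quot.mk r x) = proj r x y (Quot.mk r y) :=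
          Quot.sound (Or.inr ⟨rfl, rfl⟩)
        have h2 : proj r x y (Quot.mk r x) = Quot.mk (addPair r x y) a := by
          rw [h1, ← ha]; rfl
        simp [hxy, h2]
      · exact ⟨Quot.mk r a, by simp [ha, proj]⟩

variable (X : α → α → Prop) (p q p' q' : α)

/-- the two smoothings -/
def smI : α → α → Prop := addPair (addPair X p p') q q'

theorem eqv_of_rel {r : α → α → Prop} {a b : α} (h : r a b) : Relation.EqvGen r a b :=
  Relation.EqvGen.rel _ _ h

theorem smE_le_Y (a b : α) (h : smI X p p' q q' a b) :
    Relation.EqvGen (addPair (smI X p q p' q') p q) a b := by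
  have hpq : Relation.EqvGen (addPair (smI X p q p' q') p q) p q := eqv_of_rel (Or.inr ⟨rfl, rfl⟩)
  have hpp : Relation.EqvGen (addPair (smI X p q p' q') p q) p p' :=
    eqv_of_rel (Or.inl (Or.inl (Or.inr ⟨rfl, rfl⟩)))
  have hqq : Relation.EqvGen (addPair (smI X p q p' q') p q) q q' :=
    eqv_of_rel (Or.inl (Or.inr ⟨rfl, rfl⟩))
  rcases h with (h | ⟨rfl, rfl⟩) | ⟨rfl, rfl⟩
  · exact eqv_of_rel (Or.inl (Or.inl (Or.inl h)))
  · exact hpq
  · exact (hpp.symm).trans _ _ _ (hpq.trans _ _ _ hqq)

/-- `smI X p q p' q'` joins `p - p'` and `q - q'`; `smI X p p' q q'` joins `p - q` and `p' - q'`. -/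
theorem card_smI_le : Nat.card (Quot (smI X p q p' q')) ≤ Nat.card (Quot (smI X p p' q q')) + 1 := by
  refine (card_quot_addPair_le _ p q).trans ?_
  have := card_quot_le_of_le (smE_le_Y X p q p' q')
  omega

theorem exact_of_indicator (H : ∀ g : α → ℤ, (∀ a b, X a b → g a = g b) → g p' + g q = g p + g q')
    (hne : Quot.mk (smI X p q p' q') p ≠ Quot.mk (smI X p q p' q') q) :
    Relation.EqvGen X p p' ∧ Relation.EqvGen X q q' := by
  classical
  have key : ∀ z, (∀ a b, X a b → (fun t => if Quot.mk X t = Quot.mk X z then (1 : ℤ) else 0) a =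
      (fun t => if Quot.mk X t = Quot.mk X z then (1 : ℤ) else 0) b) := by
    intro z a b hab
    have : Quot.mk X a = Quot.mk X b := Quot.sound hab
    simp only [this]
  have hlift : ∀ a b, Quot.mk X a = Quot.mk X b →
      Quot.mk (smI X p q p' q') a = Quot.mk (smI X p q p' q') b := by
    intro a b hab
    have h1 := Quot.eqvGen_exact hab
    have h2 : Relation.EqvGen (smI X p q p' q') a b :=
      Relation.EqvGen.mono (fun x y hxy => Or.inl (Or.inl hxy)) _ _ h1
    exact Quot.eqvGen_sound h2
  have hpq : ¬ Quot.mk X q = Quot.mk X p := fun h => hne (hlift _ _ h).symm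
  have hqp : ¬ Quot.mk X p = Quot.mk X q := fun h => hne (hlift _ _ h)
  constructor
  · have h1 := H _ (key p)
    simp only [hpq, if_false, if_true] at h1
    by_cases h2 : Quot.mk X p' = Quot.mk X p
    · exact (Quot.eqvGen_exact h2).symm
    · rw [if_neg h2] at h1
      split_ifs at h1 <;> omega
  · have h1 := H _ (key q)
    simp only [hqp, if_false, if_true] at h1
    by_cases h2 : Quot.mk X q' = Quot.mk X q
    · exact (Quot.eqvGen_exact h2).symm
    · rw [if_neg h2] at h1
      split_ifs at h1 <;> omega

theorem card_smI_eq (H : ∀ g : α → ℤ, (∀ a b, X a b → g a = g b) → g p' + g q = g p + g q')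
    (hne : Quot.mk (smI X p q p' q') p ≠ Quot.mk (smI X p q p' q') q) :
    Nat.card (Quot (smI X p q p' q')) = Nat.card (Quot (smI X p p' q q')) + 1 := by
  have h1 := card_quot_addPair_eq _ _ _ hne
  have h2 := card_quot_le_of_le (smE_le_Y X p q p' q')
  obtain ⟨e1, e2⟩ := exact_of_indicator X p q p' q' H hne
  have h3 : Nat.card (Quot (smI X p p' q q')) ≤
      Nat.card (Quot (addPair (smI X p q p' q') p q)) := by
    apply card_quot_le_of_le
    have hX : ∀ a b, Relation.EqvGen X a b → Relation.EqvGen (smI X p p' q q') a b :=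
      fun a b h => Relation.EqvGen.mono (fun x y hxy => Or.inl (Or.inl hxy)) _ _ h
    rintro a b (((h | ⟨rfl, rfl⟩) | ⟨rfl, rfl⟩) | ⟨rfl, rfl⟩)
    · exact eqv_of_rel (Or.inl (Or.inl h))
    · exact hX _ _ e1
    · exact hX _ _ e2
    · exact eqv_of_rel (Or.inl (Or.inr ⟨rfl, rfl⟩))
  omega

end QuotLemmas

end Pool.Agent.R805.Weave
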