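import Pool.Agent.R805.Weave.QuotLemmas

namespace Pool.Agent.R805.Weave

variable {n N : ℕ} (c : Fin N → Fin n)

/-- lower left point of crossing `τ` -/
def P00 (τ : Fin N) : Pt n N := (τ.castSucc, (c τ).castSucc)
/-- lower right point of crossing `τ` -/
def P01 (τ : Fin N) : Pt n N := (τ.castSucc, (c τ).succ)
/-- upper left point of crossing `τ` -/
def P10 (τ : Fin N) : Pt n N := (τ.succ, (c τ).castSucc)
/-- upper right point of crossing `τ` -/
def P11 (τ : Fin N) : Pt n N := (τ.succ, (c τ).succ)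

/-- arcs common to two states -/
def comm (s s' : Fin N → Bool) : Pt n N → Pt n N → Prop := fun a b => Arc c s a b ∧ Arc c s' a b

theorem arc_true {s s' : Fin N → Bool} {τ : Fin N} (h : ∀ σ, σ ≠ τ → s' σ = s σ)
    (hs : s τ = true) : Arc c s = smI (comm c s s') (P00 c τ) (P01 c τ) (P10 c τ) (P11 c τ) := by
  funext a b
  apply propext
  constructor
  · intro hab
    cases hab with
    | through σ j h1 h2 => exact Or.inl (Or.inl ⟨Arc.through σ j h1 h2, Arc.through σ j h1 h2⟩)
    | left σ h1 =>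
      by_cases hσ : σ = τ
      · subst hσ; exact Or.inl (Or.inr ⟨rfl, rfl⟩)
      · exact Or.inl (Or.inl ⟨Arc.left σ h1, Arc.left σ (by rw [h σ hσ]; exact h1)⟩)
    | right σ h1 =>
      by_cases hσ : σ = τ
      · subst hσ; exact Or.inr ⟨rfl, rfl⟩
      · exact Or.inl (Or.inl ⟨Arc.right σ h1, Arc.right σ (by rw [h σ hσ]; exact h1)⟩)
    | bottom σ h1 =>
      by_cases hσ : σ = τ
      · subst hσ; rw [hs] at h1; cases h1
      · exact Or.inl (Or.inl ⟨Arc.bottom σ h1, Arc.bottom σ (by rw [h σ hσ]; exact h1)⟩)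
    | top σ h1 =>
      by_cases hσ : σ = τ
      · subst hσ; rw [hs] at h1; cases h1
      · exact Or.inl (Or.inl ⟨Arc.top σ h1, Arc.top σ (by rw [h σ hσ]; exact h1)⟩)
    | close j => exact Or.inl (Or.inl ⟨Arc.close j, Arc.close j⟩)
  · rintro ((h1 | ⟨rfl, rfl⟩) | ⟨rfl, rfl⟩)
    · exact h1.1
    · exact Arc.left τ hs
    · exact Arc.right τ hs

theorem arc_false {s s' : Fin N → Bool} {τ : Fin N} (h : ∀ σ, σ ≠ τ → s' σ = s σ)
    (hs : s τ = false) : Arc c s = smI (comm c s s') (P00 c τ) (P10 c τ) (P01 c τ) (P11 c τ) := by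
  funext a b
  apply propext
  constructor
  · intro hab
    cases hab with
    | through σ j h1 h2 => exact Or.inl (Or.inl ⟨Arc.through σ j h1 h2, Arc.through σ j h1 h2⟩)
    | bottom σ h1 =>
      by_cases hσ : σ = τ
      · subst hσ; exact Or.inl (Or.inr ⟨rfl, rfl⟩)
      · exact Or.inl (Or.inl ⟨Arc.bottom σ h1, Arc.bottom σ (by rw [h σ hσ]; exact h1)⟩)
    | top σ h1 =>
      by_cases hσ : σ = τ
      · subst hσ; exact Or.inr ⟨rfl, rfl⟩
      · exact Or.inl (Or.inl ⟨Arc.top σ h1, Arc.top σ (by rw [h σ hσ]; exact h1)⟩)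
    | left σ h1 =>
      by_cases hσ : σ = τ
      · subst hσ; rw [hs] at h1; cases h1
      · exact Or.inl (Or.inl ⟨Arc.left σ h1, Arc.left σ (by rw [h σ hσ]; exact h1)⟩)
    | right σ h1 =>
      by_cases hσ : σ = τ
      · subst hσ; rw [hs] at h1; cases h1
      · exact Or.inl (Or.inl ⟨Arc.right σ h1, Arc.right σ (by rw [h σ hσ]; exact h1)⟩)
    | close j => exact Or.inl (Or.inl ⟨Arc.close j, Arc.close j⟩)
  · rintro ((h1 | ⟨rfl, rfl⟩) | ⟨rfl, rfl⟩)
    · exact h1.1
    · exact Arc.bottom τ hs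
    · exact Arc.top τ hs

theorem comm_symm (s s' : Fin N → Bool) : comm c s s' = comm c s' s := by
  funext a b
  exact propext ⟨fun h => ⟨h.2, h.1⟩, fun h => ⟨h.2, h.1⟩⟩

theorem telescope (f : Fin (N + 1) → ℤ) :
    ∑ σ : Fin N, (f σ.succ - f σ.castSucc) = f (Fin.last N) - f 0 := by
  induction N with
  | zero => simp
  | succ N ih =>
    rw [Fin.sum_univ_castSucc]
    have h2 : ∑ i : Fin N, (f i.castSucc.succ - f i.castSucc.castSucc) =
        ∑ σ : Fin N, ((fun x : Fin (N+1) => f x.castSucc) σ.succ -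
          (fun x : Fin (N+1) => f x.castSucc) σ.castSucc) := by
      apply Finset.sum_congr rfl
      intro i _
      rfl
    rw [h2, ih (fun x : Fin (N+1) => f x.castSucc)]
    simp

theorem inner_sum (s s' : Fin N → Bool) (g : Pt n N → ℤ)
    (hg : ∀ a b, comm c s s' a b → g a = g b) (σ : Fin N) :
    ∑ j : Fin (n + 1), (-1 : ℤ) ^ (j : ℕ) * (g (σ.succ, j) - g (σ.castSucc, j)) =
      (-1) ^ (c σ : ℕ) * ((g (P10 c σ) - g (P00 c σ)) - (g (P11 c σ) - g (P01 c σ))) := by
  have hne : (c σ).castSucc ≠ (c σ).succ := by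
    intro h
    have := congrArg Fin.val h
    simp at this
  rw [Finset.sum_eq_add (c σ).castSucc (c σ).succ hne]
  · simp only [Fin.val_castSucc, Fin.val_succ, P10, P00, P11, P01, pow_succ]
    ring
  · intro j _ hj
    have := hg _ _ ⟨Arc.through σ j hj.1 hj.2, Arc.through σ j hj.1 hj.2⟩
    rw [this]; ring
  · intro h; exact absurd (Finset.mem_univ _) h
  · intro h; exact absurd (Finset.mem_univ _) h

theorem flow {s s' : Fin N → Bool} {τ : Fin N} (h : ∀ σ, σ ≠ τ → s' σ = s σ) (g : Pt n N → ℤ)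
    (hg : ∀ a b, comm c s s' a b → g a = g b) :
    g (P10 c τ) + g (P01 c τ) = g (P00 c τ) + g (P11 c τ) := by
  have h1 : ∑ σ : Fin N, ∑ j : Fin (n + 1),
      (-1 : ℤ) ^ (j : ℕ) * (g (σ.succ, j) - g (σ.castSucc, j)) = 0 := by
    rw [Finset.sum_comm]
    apply Finset.sum_eq_zero
    intro j _
    rw [← Finset.mul_sum, telescope (fun x => g (x, j))]
    have := hg _ _ ⟨Arc.close j, Arc.close j⟩
    simp only [this]; ring
  rw [Finset.sum_eq_single τ] at h1
  · rw [inner_sum c s s' g hg] at h1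
    have h2 : (-1 : ℤ) ^ (c τ : ℕ) ≠ 0 := pow_ne_zero _ (by norm_num)
    have h3 := (mul_eq_zero.mp h1).resolve_left h2
    linarith
  · intro σ _ hσ
    rw [inner_sum c s s' g hg]
    cases hs : s σ with
    | true =>
      have e1 := hg _ _ ⟨Arc.left σ hs, Arc.left σ (by rw [h σ hσ]; exact hs)⟩
      have e2 := hg _ _ ⟨Arc.right σ hs, Arc.right σ (by rw [h σ hσ]; exact hs)⟩
      simp only [P10, P00, P11, P01, e1, e2]; ring
    | false =>
      have e1 := hg _ _ ⟨Arc.bottom σ hs, Arc.bottom σ (by rw [h σ hσ]; exact hs)⟩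
      have e2 := hg _ _ ⟨Arc.top σ hs, Arc.top σ (by rw [h σ hσ]; exact hs)⟩
      simp only [P10, P00, P11, P01, e1, e2]; ring
  · intro h; exact absurd (Finset.mem_univ _) h

/-- toggling one crossing changes the number of loops by at most one -/
theorem loops_toggle_le {s s' : Fin N → Bool} {τ : Fin N} (h : ∀ σ, σ ≠ τ → s' σ = s σ) :
    loops c s ≤ loops c s' + 1 := by
  unfold loops
  have h' : ∀ σ, σ ≠ τ → s σ = s' σ := fun σ hσ => (h σ hσ).symm
  cases hs : s τ with
  | true =>
    cases hs' : s' τ with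
    | true =>
      have : s = s' := by
        funext σ
        by_cases hσ : σ = τ
        · rw [hσ, hs, hs']
        · exact h' σ hσ
      rw [this]; omega
    | false =>
      rw [arc_true c h hs, arc_false c h' hs', comm_symm c s' s]
      exact card_smI_le _ _ _ _ _
  | false =>
    cases hs' : s' τ with
    | false =>
      have : s = s' := by
        funext σ
        by_cases hσ : σ = τ
        · rw [hσ, hs, hs']
        · exact h' σ hσ
      rw [this]; omega
    | true =>
      rw [arc_false c h hs, arc_true c h' hs', comm_symm c s' s]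
      exact card_smI_le _ _ _ _ _

/-- if the two arcs at the crossing `τ` are separated by an invariant function, toggling `τ` merges
two loops -/
theorem loops_toggle_merge {s s' : Fin N → Bool} {τ : Fin N} (h : ∀ σ, σ ≠ τ → s' σ = s σ)
    (hτ : s' τ = !s τ) (g : Pt n N → Prop) (hg : ∀ a b, Arc c s a b → (g a ↔ g b))
    (hsep : ¬ (g (P00 c τ) ↔ g (P11 c τ))) :
    loops c s = loops c s' + 1 := by
  unfold loops
  have h' : ∀ σ, σ ≠ τ → s σ = s' σ := fun σ hσ => (h σ hσ).symm
  have hinv : ∀ a b, Quot.mk (Arc c s) a = Quot.mk (Arc c s) b → (g a ↔ g b) := by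
    intro a b hab
    have h1 := Quot.eqvGen_exact hab
    induction h1 with
    | rel _ _ h2 => exact hg _ _ h2
    | refl _ => exact Iff.rfl
    | symm _ _ h2 ih => exact (ih (Quot.eqvGen_sound h2)).symm
    | trans _ _ _ h2 h3 ih1 ih2 => exact (ih1 (Quot.eqvGen_sound h2)).trans (ih2 (Quot.eqvGen_sound h3))
  cases hs : s τ with
  | true =>
    have hs' : s' τ = false := by rw [hτ, hs]; rfl
    have hne : Quot.mk (Arc c s) (P00 c τ) ≠ Quot.mk (Arc c s) (P01 c τ) := by
      intro h1
      apply hsep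
      exact (hinv _ _ h1).trans (hg _ _ (Arc.right τ hs))
    rw [arc_true c h hs] at hne
    rw [arc_true c h hs, arc_false c h' hs', comm_symm c s' s]
    apply card_smI_eq _ _ _ _ _ _ hne
    intro g hg
    exact flow c h g hg
  | false =>
    have hs' : s' τ = true := by rw [hτ, hs]; rfl
    have hne : Quot.mk (Arc c s) (P00 c τ) ≠ Quot.mk (Arc c s) (P10 c τ) := by
      intro h1
      apply hsep
      exact (hinv _ _ h1).trans (hg _ _ (Arc.top τ hs))
    rw [arc_false c h hs] at hne
    rw [arc_false c h hs, arc_true c h' hs', comm_symm c s' s]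
    apply card_smI_eq _ _ _ _ _ _ hne
    intro g hg
    have := flow c h g hg
    linarith

end Pool.Agent.R805.Weave
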